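import Pool.Agent.Helper85.SZ.Sys
import Pool.Agent.K3h89.SX.BADX
import Pool.Agent.K3h89.SX.MOM
import Pool.Agent.K3h89.SZ.LAR

/-! Common prime factors of `∏ (x + b i)` and `∏ (x + h + b i)`: few medium sized ones for most `h`, few large ones. -/

set_option autoImplicit false

open Finset Filter Topology

namespace Pool.Agent.Helper85.SZ

open Pool.Agent.TH423.SH (PS)
open Pool.Agent.K3h89.SZ (SysP CF)
open Pool.Agent.Y677.RSZ (ev_log)
open Pool.Agent.K3h89.SX (big_primes sum_un)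

open Classical in
/-- few `t ≤ N` are such that `a + W t` has many medium sized prime factors -/
theorem bad_one (C B : ℕ) (ε : ℝ) (hε : 0 < ε) : ∃ H₀ : ℕ, ∀ H : ℕ, H₀ ≤ H → ∀ a : ℤ, |a| ≤ (H : ℤ) ^ C →
    ∀ W N : ℕ, 1 ≤ W → (W : ℝ) ≤ Real.log H ^ B → Real.log H ^ 8 ≤ N → (N : ℝ) ≤ Real.log H ^ B →
    (∀ p : ℕ, p.Prime → (p : ℝ) ≤ Real.log N → p ∣ W) →
    (∀ t : ℕ, 1 ≤ t → t ≤ N → a + W * t ≠ 0) →
    (((Icc 1 N).filter (fun t : ℕ =>
      ε < ∑ p ∈ (PS W H).filter (fun p : ℕ => (p : ℤ) ∣ a + W * t), (1 : ℝ) / p)).card : ℝ) ≤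
      (N : ℝ) ^ (3 / 4 : ℝ) := by
  obtain ⟨N₀, hMOM⟩ := Pool.Agent.K3h89.SX.mom (ε / 2) (by positivity)
  have hlog : Tendsto (fun H : ℕ => Real.log H) atTop atTop :=
    Real.tendsto_log_atTop.comp tendsto_natCast_atTop_atTop
  obtain ⟨H₀, hH₀⟩ := eventually_atTop.1 ((((hlog.eventually_ge_atTop (N₀ : ℝ)).and
    (hlog.eventually_ge_atTop ((2 : ℝ) ^ 20))).and (hlog.eventually_ge_atTop (4 * (C + 1) / ε))).and
    ((ev_log (2 * B) 2 1 one_pos).and (eventually_ge_atTop (5 : ℕ))))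
  refine ⟨H₀, ?_⟩
  intro H hH a ha W N hW hWB hlN hNB hpW hne
  obtain ⟨⟨⟨e2, e3⟩, e4⟩, e5, e6⟩ := hH₀ H hH
  obtain ⟨l, hl⟩ : ∃ l : ℝ, l = Real.log H := ⟨_, rfl⟩
  rw [← hl] at e2 e3 e4 e5 hWB hlN hNB
  have hl20 : (1048576 : ℝ) ≤ l := by norm_num at e3; linarith
  have hl0 : 0 < l := by linarith
  have hl1 : 1 ≤ l := by linarith
  have hN1 : l ≤ N := le_trans (le_self_pow₀ hl1 (by norm_num)) hlN
  have hN0 : (0 : ℝ) < N := by linarith
  have hNN₀ : N₀ ≤ N := by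
    have : (N₀ : ℝ) ≤ N := e2.trans hN1
    exact_mod_cast this
  obtain ⟨z, hz⟩ : ∃ z : ℕ, z = Nat.sqrt (Nat.sqrt N) := ⟨_, rfl⟩
  have hz4 : z ^ 4 ≤ N := by
    have h3 : z * z ≤ Nat.sqrt N := by rw [hz]; exact Nat.sqrt_le _
    have h4 : Nat.sqrt N * Nat.sqrt N ≤ N := Nat.sqrt_le _
    calc z ^ 4 = (z * z) * (z * z) := by ring
      _ ≤ Nat.sqrt N * Nat.sqrt N := Nat.mul_le_mul h3 h3
      _ ≤ N := h4
  have hz4' : N < (z + 1) ^ 4 := by
    have h3 : Nat.sqrt N < (z + 1) * (z + 1) := by rw [hz]; exact Nat.lt_succ_sqrt _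
    have h4 : N < (Nat.sqrt N + 1) * (Nat.sqrt N + 1) := Nat.lt_succ_sqrt _
    calc N < (Nat.sqrt N + 1) * (Nat.sqrt N + 1) := h4
      _ ≤ ((z + 1) * (z + 1)) * ((z + 1) * (z + 1)) := Nat.mul_le_mul h3 h3
      _ = (z + 1) ^ 4 := by ring
  have hzl : l ^ 2 / 2 ≤ z := by
    have h3 : l ^ 8 < ((z : ℝ) + 1) ^ 4 := lt_of_le_of_lt hlN (by exact_mod_cast hz4')
    have h4 : l ^ 2 < (z : ℝ) + 1 := by
      by_contra hcon
      push Not at hcon
      have h5 : ((z : ℝ) + 1) ^ 4 ≤ (l ^ 2) ^ 4 := pow_le_pow_left₀ (by positivity) hcon 4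
      have h6 : (l ^ 2) ^ 4 = l ^ 8 := by ring
      linarith
    nlinarith
  have hz3 : (3 : ℝ) ≤ z := by nlinarith
  have hz0 : (0 : ℝ) < z := by linarith
  have hlogz : 1 ≤ Real.log z := by
    rw [Real.le_log_iff_exp_le hz0]
    linarith [Real.exp_one_lt_d9]
  have hH0 : (0 : ℝ) < H := by exact_mod_cast (show 0 < H by omega)
  rw [Real.rpow_one] at e5
  have hWj : ∀ j : ℕ, j ≤ N → 2 * (W * j) ≤ H := by
    intro j hj
    have h3 : (j : ℝ) ≤ l ^ B := le_trans (by exact_mod_cast hj) hNB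
    have h4 : (W : ℝ) * j ≤ l ^ (2 * B) := by
      calc (W : ℝ) * j ≤ l ^ B * l ^ B := by gcongr
        _ = l ^ (2 * B) := by rw [← pow_add, two_mul]
    have h5 : (2 : ℝ) * (W * j) ≤ H := by linarith
    exact_mod_cast h5
  have hbig : (C + 1) * l / (z * Real.log z) ≤ ε / 2 := by
    have h3 : l ^ 2 / 2 ≤ z * Real.log z := by nlinarith
    have h4 : 4 * (C + 1) ≤ l * ε := by
      rw [div_le_iff₀ hε] at e4
      exact e4
    rw [div_le_iff₀ (by positivity)]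
    calc (C + 1) * l ≤ ε / 2 * (l ^ 2 / 2) := by nlinarith
      _ ≤ ε / 2 * (z * Real.log z) := by gcongr
  refine le_trans (Nat.cast_le.2 (card_le_card ?_)) (hMOM a W N z hNN₀ hz4)
  intro t ht
  rw [mem_filter] at ht ⊢
  obtain ⟨htN, htε⟩ := ht
  refine ⟨htN, ?_⟩
  rw [mem_Icc] at htN
  have hWt := hWj t htN.2
  have ht0 := hne t htN.1 htN.2
  obtain ⟨S0, hS0⟩ : ∃ S0, S0 = (PS W H).filter (fun p : ℕ => (p : ℤ) ∣ a + W * t) := ⟨_, rfl⟩
  rw [← hS0] at htε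
  have hS0p : ∀ p ∈ S0, p.Prime ∧ ¬ p ∣ W ∧ Real.log N < p ∧ (p : ℤ) ∣ a + W * t := by
    intro p hp
    rw [hS0, mem_filter] at hp
    have hp1 := hp.1
    unfold PS at hp1
    rw [mem_filter] at hp1
    refine ⟨hp1.2.1, hp1.2.2, ?_, hp.2⟩
    by_contra h3
    push Not at h3
    exact hp1.2.2 (hpW p hp1.2.1 h3)
  have hcov : S0 ⊆ ((Icc 1 z).filter (fun p : ℕ => p.Prime ∧ Real.log N < p ∧ ¬ p ∣ W ∧ (p : ℤ) ∣ a + W * t)) ∪
      S0.filter (fun p => z < p) := by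
    intro p hp
    obtain ⟨q1, q2, q3, q4⟩ := hS0p p hp
    rw [mem_union]
    by_cases hpz : p ≤ z
    · left
      rw [mem_filter, mem_Icc]
      exact ⟨⟨q1.one_lt.le, hpz⟩, q1, q3, q2, q4⟩
    · right
      rw [mem_filter]
      exact ⟨hp, by omega⟩
  have h1 := (sum_le_sum_of_subset_of_nonneg (f := fun p : ℕ => (1 : ℝ) / p) hcov
    fun _ _ _ => by positivity).trans (sum_un _ _)
  have h2 : ∑ p ∈ S0.filter (fun p => z < p), (1 : ℝ) / p ≤ ε / 2 := by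
    refine (big_primes _ (a + W * t).natAbs (by simpa using ht0) z ((C + 1) * l) (by linarith) ?_ ?_).trans hbig
    · intro p hp
      rw [mem_filter] at hp
      obtain ⟨q1, q2, q3, q4⟩ := hS0p p hp.1
      exact ⟨q1, Int.natCast_dvd.1 q4, by exact_mod_cast hp.2.le⟩
    · have h3 : ((a + W * t).natAbs : ℝ) ≤ (H : ℝ) ^ (C + 1) := by
        have h4 : |a + W * t| ≤ (H : ℤ) ^ C + (W * t : ℕ) := by
          refine (abs_add_le _ _).trans (add_le_add ha (le_of_eq ?_))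
          push_cast
          exact abs_of_nonneg (by positivity)
        have h5 : (((a + W * t).natAbs : ℕ) : ℤ) ≤ (H : ℤ) ^ C + (W * t : ℕ) := by
          rw [Int.natCast_natAbs]
          exact h4
        have h6 : (((a + W * t).natAbs : ℕ) : ℝ) ≤ (H : ℝ) ^ C + ((W * t : ℕ) : ℝ) := by exact_mod_cast h5
        have h7 : 2 * ((W * t : ℕ) : ℝ) ≤ H := by exact_mod_cast (by omega : 2 * (W * t) ≤ H)
        have h8 : (5 : ℝ) ≤ H := by exact_mod_cast e6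
        have h9 : (1 : ℝ) ≤ (H : ℝ) ^ C := one_le_pow₀ (by linarith)
        have h10 : 0 ≤ ((H : ℝ) ^ C - 1) * (H - 1) := mul_nonneg (by linarith) (by linarith)
        rw [pow_succ]
        nlinarith
      have h4 : (0 : ℝ) < ((a + W * t).natAbs : ℝ) := by
        have : 0 < (a + W * t).natAbs := Int.natAbs_pos.2 ht0
        exact_mod_cast this
      have h5 := Real.log_le_log h4 h3
      rw [Real.log_pow, ← hl] at h5
      push_cast at h5
      exact h5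
  linarith

open Classical in
/-- few `t ≤ N` are such that `Fb b x`, `Fb b (x + W t)` have many common prime factors -/
theorem bad (m C B : ℕ) (ε : ℝ) (hε : 0 < ε) : ∃ H₀ : ℕ, ∀ H : ℕ, H₀ ≤ H → ∀ b : Fin m → ℤ,
    (∀ i, |b i| ≤ (H : ℤ) ^ C) → (∀ i j, i ≠ j → Real.log H ^ (2 * B) < |((b i - b j : ℤ) : ℝ)|) →
    ∀ W N : ℕ, 1 ≤ W → (W : ℝ) ≤ Real.log H ^ B → Real.log H ^ 8 ≤ N → (N : ℝ) ≤ Real.log H ^ B →
    (∀ p : ℕ, p.Prime → (p : ℝ) ≤ Real.log N → p ∣ W) →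
    (((Icc 1 N).filter (fun t : ℕ =>
      ε < ∑ p ∈ (PS W H).filter (fun p : ℕ => CF (Fb b) (W * t) p), (1 : ℝ) / p)).card : ℝ) ≤
      (N : ℝ) ^ (4 / 5 : ℝ) := by
  obtain ⟨H₁, h1⟩ := bad_one (C + 1) B (ε / (m ^ 2 + 1)) (by positivity)
  have hlog : Tendsto (fun H : ℕ => Real.log H) atTop atTop :=
    Real.tendsto_log_atTop.comp tendsto_natCast_atTop_atTop
  obtain ⟨H₂, h2⟩ := eventually_atTop.1 (hlog.eventually_ge_atTop (((m : ℝ) ^ 2 + 1) ^ 20))
  refine ⟨H₁ + H₂ + 2, ?_⟩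
  intro H hH b hb hsp W N hW hWB hlN hNB hpW
  have hm1 : (1 : ℝ) ≤ (m : ℝ) ^ 2 + 1 := by nlinarith [sq_nonneg (m : ℝ)]
  have hl := h2 H (by omega)
  have hl1 : 1 ≤ Real.log H := le_trans (one_le_pow₀ hm1) hl
  have hN1 : Real.log H ≤ N := le_trans (le_self_pow₀ hl1 (by norm_num)) hlN
  have hN0 : (0 : ℝ) < N := by linarith
  have hH2 : (2 : ℤ) ≤ H := by exact_mod_cast (by omega : 2 ≤ H)
  have hpair : ∀ i j : Fin m, (((Icc 1 N).filter (fun t : ℕ => ε / (m ^ 2 + 1) <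
      ∑ p ∈ (PS W H).filter (fun p : ℕ => (p : ℤ) ∣ (b j - b i) + W * t), (1 : ℝ) / p)).card : ℝ) ≤
      (N : ℝ) ^ (3 / 4 : ℝ) := by
    intro i j
    refine h1 H (by omega) (b j - b i) ?_ W N hW hWB hlN hNB hpW ?_
    · have e1 := hb i
      have e2 := hb j
      have e3 : |b j - b i| ≤ |b j| + |b i| := abs_sub _ _
      have e4 : (H : ℤ) ^ (C + 1) = (H : ℤ) ^ C * H := pow_succ _ _
      have e5 : (0 : ℤ) ≤ (H : ℤ) ^ C := by positivity
      rw [e4]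
      nlinarith
    · intro t ht1 ht2 hcon
      have hWt : 1 ≤ W * t := Nat.mul_pos hW ht1
      by_cases hij : i = j
      · subst hij
        rw [sub_self, zero_add] at hcon
        have : ((W * t : ℕ) : ℤ) = 0 := by push_cast; exact hcon
        omega
      · have e1 := hsp i j hij
        have e2 : (b i - b j : ℤ) = (W * t : ℕ) := by
          push_cast
          linarith
        rw [e2] at e1
        have e3 : (((W * t : ℕ) : ℤ) : ℝ) = (W : ℝ) * t := by push_cast; ring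
        rw [e3, abs_of_nonneg (by positivity)] at e1
        have e4 : (t : ℝ) ≤ Real.log H ^ B := le_trans (by exact_mod_cast ht2) hNB
        have e5 : (W : ℝ) * t ≤ Real.log H ^ B * Real.log H ^ B :=
          mul_le_mul hWB e4 (by positivity) (by positivity)
        rw [← pow_add, ← two_mul] at e5
        linarith
  have hsub : (Icc 1 N).filter (fun t : ℕ =>
      ε < ∑ p ∈ (PS W H).filter (fun p : ℕ => CF (Fb b) (W * t) p), (1 : ℝ) / p) ⊆
      (univ : Finset (Fin m × Fin m)).biUnion (fun q => (Icc 1 N).filter (fun t : ℕ => ε / (m ^ 2 + 1) <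
      ∑ p ∈ (PS W H).filter (fun p : ℕ => (p : ℤ) ∣ (b q.2 - b q.1) + W * t), (1 : ℝ) / p)) := by
    intro t ht
    rw [mem_filter] at ht
    by_contra hcon
    apply not_le.2 ht.2
    have h3 : ∀ q : Fin m × Fin m, ∑ p ∈ (PS W H).filter (fun p : ℕ => (p : ℤ) ∣ (b q.2 - b q.1) + W * t), (1 : ℝ) / p ≤
        ε / (m ^ 2 + 1) := by
      intro q
      by_contra hq
      apply hcon
      rw [mem_biUnion]
      exact ⟨q, mem_univ _, by rw [mem_filter]; exact ⟨ht.1, not_le.1 hq⟩⟩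
    calc ∑ p ∈ (PS W H).filter (fun p : ℕ => CF (Fb b) (W * t) p), (1 : ℝ) / p
        ≤ ∑ p ∈ PS W H, ∑ q : Fin m × Fin m, if (p : ℤ) ∣ (b q.2 - b q.1) + W * t then (1 : ℝ) / p else 0 := by
          rw [sum_filter]
          apply sum_le_sum
          intro p hp
          split_ifs with hc
          · have hpp : p.Prime := by
              unfold PS at hp
              exact (mem_filter.1 hp).2.1
            obtain ⟨i, j, hij⟩ := fb_cf b hpp hc
            push_cast at hij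
            refine le_trans ?_ (single_le_sum (f := fun q : Fin m × Fin m =>
              if (p : ℤ) ∣ (b q.2 - b q.1) + W * t then (1 : ℝ) / p else 0) (fun q _ => ?_) (mem_univ (i, j)))
            · simp only
              rw [if_pos hij]
            · split_ifs <;> positivity
          · exact sum_nonneg fun q _ => by split_ifs <;> positivity
      _ = ∑ q : Fin m × Fin m, ∑ p ∈ (PS W H).filter (fun p : ℕ => (p : ℤ) ∣ (b q.2 - b q.1) + W * t), (1 : ℝ) / p := by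
          rw [sum_comm]
          apply sum_congr rfl
          intro q _
          rw [sum_filter]
      _ ≤ ∑ _q : Fin m × Fin m, ε / (m ^ 2 + 1) := sum_le_sum fun q _ => h3 q
      _ = (m : ℝ) ^ 2 * (ε / (m ^ 2 + 1)) := by
          rw [sum_const, card_univ, Fintype.card_prod, Fintype.card_fin, nsmul_eq_mul]
          push_cast
          ring
      _ ≤ ε := by
          rw [mul_div_assoc', div_le_iff₀ (by positivity)]
          nlinarith
  calc _ ≤ ∑ q : Fin m × Fin m, (((Icc 1 N).filter (fun t : ℕ => ε / (m ^ 2 + 1) <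
      ∑ p ∈ (PS W H).filter (fun p : ℕ => (p : ℤ) ∣ (b q.2 - b q.1) + W * t), (1 : ℝ) / p)).card : ℝ) := by
        exact_mod_cast (card_le_card hsub).trans card_biUnion_le
    _ ≤ ∑ _q : Fin m × Fin m, (N : ℝ) ^ (3 / 4 : ℝ) := sum_le_sum fun q _ => hpair q.1 q.2
    _ = (m : ℝ) ^ 2 * (N : ℝ) ^ (3 / 4 : ℝ) := by
        rw [sum_const, card_univ, Fintype.card_prod, Fintype.card_fin, nsmul_eq_mul]
        push_cast
        ring
    _ ≤ (N : ℝ) ^ (1 / 20 : ℝ) * (N : ℝ) ^ (3 / 4 : ℝ) := by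
        apply mul_le_mul_of_nonneg_right _ (by positivity)
        have h7 : (((m : ℝ) ^ 2 + 1) ^ 20) ^ (1 / 20 : ℝ) ≤ (N : ℝ) ^ (1 / 20 : ℝ) :=
          Real.rpow_le_rpow (by positivity) (hl.trans hN1) (by norm_num)
        rw [← Real.rpow_natCast, ← Real.rpow_mul (by positivity)] at h7
        norm_num at h7
        linarith
    _ = (N : ℝ) ^ (4 / 5 : ℝ) := by
        rw [← Real.rpow_add hN0]
        norm_num

open Classical in
/-- the large primes which divide `a + h` for some small `h` -/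
theorem lar_one (C B : ℕ) (η : ℝ) (hη : 0 < η) : ∃ H₀ : ℕ, ∀ H : ℕ, H₀ ≤ H → ∀ a : ℤ, |a| ≤ (H : ℤ) ^ C →
    (∀ h : ℕ, 1 ≤ h → (h : ℝ) ≤ Real.log H ^ B → a + h ≠ 0) →
    ∑ p ∈ (Icc 1 H).filter (fun p : ℕ => p.Prime ∧ Real.exp (√(Real.log H)) ≤ p ∧
      ∃ h : ℕ, 1 ≤ h ∧ (h : ℝ) ≤ Real.log H ^ B ∧ (p : ℤ) ∣ a + h), (1 : ℝ) / p ≤ η := by
  have hcast : Tendsto (fun H : ℕ => (H : ℝ)) atTop atTop := tendsto_natCast_atTop_atTop
  have hlog : Tendsto (fun H : ℕ => Real.log (H : ℝ)) atTop atTop :=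
    Real.tendsto_log_atTop.comp hcast
  have hsq : Tendsto (fun H : ℕ => √(Real.log (H : ℝ))) atTop atTop :=
    Real.tendsto_sqrt_atTop.comp hlog
  have e1 : ∀ᶠ H : ℕ in atTop, 2 * Real.log H ^ B ≤ (H : ℝ) ^ (1 : ℝ) := ev_log B 2 1 one_pos
  have e2 : ∀ᶠ H : ℕ in atTop,
      √(Real.log (H : ℝ)) ^ (2 * B + 1) * Real.exp (-√(Real.log (H : ℝ))) < η / (C + 1) := by
    have h1 := (Real.tendsto_pow_mul_exp_neg_atTop_nhds_zero (2 * B + 1)).comp hsq
    exact h1.eventually (gt_mem_nhds (by positivity))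
  have e3 : ∀ᶠ H : ℕ in atTop, (4 : ℝ) ≤ Real.log (H : ℝ) := hlog.eventually_ge_atTop 4
  obtain ⟨H₀, hH₀⟩ := eventually_atTop.1 (e1.and (e2.and (e3.and (eventually_ge_atTop 20))))
  refine ⟨H₀, fun H hH a ha hne => ?_⟩
  obtain ⟨f1, f2, f3, f4⟩ := hH₀ H hH
  rw [Real.rpow_one] at f1
  set L : ℝ := Real.log (H : ℝ) with hL
  have hL0 : 0 ≤ L := by linarith
  set E : ℝ := Real.exp (√L) with hE
  have hu : 0 < √L := Real.sqrt_pos.2 (by linarith)
  have hE0 : 0 < E := Real.exp_pos _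
  set T : ℕ → Finset ℕ := fun h => (Icc 1 H).filter (fun p : ℕ => p.Prime ∧ E ≤ p ∧ (p : ℤ) ∣ a + h) with hT
  have hH20 : (20 : ℝ) ≤ H := by exact_mod_cast f4
  have hcard : ∀ h ∈ Icc 1 ⌊L ^ B⌋₊, ((T h).card : ℝ) ≤ (C + 1) * √L := by
    intro h hh
    obtain ⟨hh1, hh2⟩ := Finset.mem_Icc.1 hh
    have hhL : (h : ℝ) ≤ L ^ B := (Nat.le_floor_iff (by positivity)).1 hh2
    have g1 := hne h hh1 hhL
    have g2 : |((a + h : ℤ) : ℝ)| ≤ (H : ℝ) ^ (C + 1) := by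
      have h1 : |(a : ℝ)| ≤ (H : ℝ) ^ C := by exact_mod_cast ha
      have h2 : |(a : ℝ) + h| ≤ |(a : ℝ)| + |(h : ℝ)| := abs_add_le _ _
      rw [Nat.abs_cast] at h2
      push_cast
      have h9 : (1 : ℝ) ≤ (H : ℝ) ^ C := one_le_pow₀ (by linarith)
      rw [pow_succ]
      nlinarith
    have g3 := Pool.Agent.K3h89.SZ.lar_cnt g1 hE0.le g2 (T h) fun p hp => (Finset.mem_filter.1 hp).2
    have g4 := Real.log_le_log (pow_pos hE0 _) g3
    rw [Real.log_pow, Real.log_pow, hE, Real.log_exp, ← hL] at g4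
    have g5 : L = √L * √L := (Real.mul_self_sqrt hL0).symm
    have g6 : ((T h).card : ℝ) * √L ≤ ((C + 1) * √L) * √L := by
      rw [mul_assoc, ← g5]
      exact_mod_cast g4
    exact le_of_mul_le_mul_right g6 hu
  have hsub : ((Icc 1 H).filter (fun p : ℕ => p.Prime ∧ E ≤ p ∧
      ∃ h : ℕ, 1 ≤ h ∧ (h : ℝ) ≤ L ^ B ∧ (p : ℤ) ∣ a + h)) ⊆ (Icc 1 ⌊L ^ B⌋₊).biUnion T := by
    intro p hp
    obtain ⟨hp1, hp2, hp3, h, hh1, hh2, hh3⟩ := Finset.mem_filter.1 hp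
    exact Finset.mem_biUnion.2 ⟨h, Finset.mem_Icc.2 ⟨hh1, Nat.le_floor hh2⟩,
      Finset.mem_filter.2 ⟨hp1, hp2, hp3, hh3⟩⟩
  have hin : ∀ h ∈ Icc 1 ⌊L ^ B⌋₊, ∑ p ∈ T h, (1 : ℝ) / p ≤ (C + 1) * √L * Real.exp (-√L) := by
    intro h hh
    have h1 : ∀ p ∈ T h, (1 : ℝ) / p ≤ Real.exp (-√L) := by
      intro p hp
      obtain ⟨-, -, h2, -⟩ := Finset.mem_filter.1 hp
      rw [Real.exp_neg, ← hE, one_div]
      exact inv_anti₀ hE0 h2
    calc ∑ p ∈ T h, (1 : ℝ) / p ≤ ∑ _p ∈ T h, Real.exp (-√L) := Finset.sum_le_sum h1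
      _ = (T h).card * Real.exp (-√L) := by rw [Finset.sum_const, nsmul_eq_mul]
      _ ≤ (C + 1) * √L * Real.exp (-√L) :=
        mul_le_mul_of_nonneg_right (hcard h hh) (Real.exp_pos _).le
  calc _ ≤ ∑ p ∈ (Icc 1 ⌊L ^ B⌋₊).biUnion T, (1 : ℝ) / p :=
        Finset.sum_le_sum_of_subset_of_nonneg hsub fun _ _ _ => by positivity
    _ ≤ ∑ h ∈ Icc 1 ⌊L ^ B⌋₊, ∑ p ∈ T h, (1 : ℝ) / p :=
        Pool.Agent.K3h89.SZ.lar_union _ _ _ fun _ => by positivity
    _ ≤ ∑ _h ∈ Icc 1 ⌊L ^ B⌋₊, (C + 1) * √L * Real.exp (-√L) := Finset.sum_le_sum hin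
    _ = (⌊L ^ B⌋₊ : ℝ) * ((C + 1) * √L * Real.exp (-√L)) := by
        rw [Finset.sum_const, nsmul_eq_mul, Nat.card_Icc, Nat.add_sub_cancel]
    _ ≤ L ^ B * ((C + 1) * √L * Real.exp (-√L)) :=
        mul_le_mul_of_nonneg_right (Nat.floor_le (by positivity)) (by positivity)
    _ = (C + 1) * (√L ^ (2 * B + 1) * Real.exp (-√L)) := by
        have h1 : √L ^ (2 * B + 1) = L ^ B * √L := by
          rw [pow_succ, pow_mul, Real.sq_sqrt hL0]
        rw [h1]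
        ring
    _ ≤ η := by
        rw [lt_div_iff₀ (by positivity)] at f2
        linarith

open Classical in
/-- the large common prime factors -/
theorem lar (m C B : ℕ) (η : ℝ) (hη : 0 < η) : ∃ H₀ : ℕ, ∀ H : ℕ, H₀ ≤ H → ∀ b : Fin m → ℤ,
    (∀ i, |b i| ≤ (H : ℤ) ^ C) → (∀ i j, i ≠ j → Real.log H ^ (2 * B) < |((b i - b j : ℤ) : ℝ)|) →
    ∑ p ∈ (Icc 1 H).filter (fun p : ℕ => p.Prime ∧ Real.exp (√(Real.log H)) ≤ p ∧
      ∃ h : ℕ, 1 ≤ h ∧ (h : ℝ) ≤ Real.log H ^ B ∧ CF (Fb b) h p), (1 : ℝ) / p ≤ η := by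
  obtain ⟨H₁, h1⟩ := lar_one (C + 1) B (η / (m ^ 2 + 1)) (by positivity)
  have hlog : Tendsto (fun H : ℕ => Real.log H) atTop atTop :=
    Real.tendsto_log_atTop.comp tendsto_natCast_atTop_atTop
  obtain ⟨H₂, h2⟩ := eventually_atTop.1 (hlog.eventually_ge_atTop 1)
  refine ⟨H₁ + H₂ + 2, ?_⟩
  intro H hH b hb hsp
  have hl1 := h2 H (by omega)
  have hH2 : (2 : ℤ) ≤ H := by exact_mod_cast (by omega : 2 ≤ H)
  have hpair : ∀ q : Fin m × Fin m, ∑ p ∈ (Icc 1 H).filter (fun p : ℕ => p.Prime ∧ Real.exp (√(Real.log H)) ≤ p ∧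
      ∃ h : ℕ, 1 ≤ h ∧ (h : ℝ) ≤ Real.log H ^ B ∧ (p : ℤ) ∣ (b q.2 - b q.1) + h), (1 : ℝ) / p ≤ η / (m ^ 2 + 1) := by
    rintro ⟨i, j⟩
    refine h1 H (by omega) (b j - b i) ?_ ?_
    · have e1 := hb i
      have e2 := hb j
      have e3 : |b j - b i| ≤ |b j| + |b i| := abs_sub _ _
      have e4 : (H : ℤ) ^ (C + 1) = (H : ℤ) ^ C * H := pow_succ _ _
      have e5 : (0 : ℤ) ≤ (H : ℤ) ^ C := by positivity
      rw [e4]
      nlinarith
    · intro h hh1 hh2 hcon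
      by_cases hij : i = j
      · subst hij
        rw [sub_self, zero_add] at hcon
        omega
      · have e1 := hsp i j hij
        have e2 : (b i - b j : ℤ) = (h : ℕ) := by linarith
        rw [e2] at e1
        rw [Int.cast_natCast, abs_of_nonneg (by positivity)] at e1
        have e5 : Real.log H ^ B ≤ Real.log H ^ (2 * B) := pow_le_pow_right₀ hl1 (by omega)
        linarith
  calc _ ≤ ∑ p ∈ (Icc 1 H), ∑ q : Fin m × Fin m, if (p.Prime ∧ Real.exp (√(Real.log H)) ≤ p ∧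
      ∃ h : ℕ, 1 ≤ h ∧ (h : ℝ) ≤ Real.log H ^ B ∧ (p : ℤ) ∣ (b q.2 - b q.1) + h) then (1 : ℝ) / p else 0 := by
        rw [sum_filter]
        apply sum_le_sum
        intro p hp
        split_ifs with hc
        · obtain ⟨c1, c2, h, c3, c4, c5⟩ := hc
          obtain ⟨i, j, hij⟩ := fb_cf b c1 c5
          refine le_trans ?_ (single_le_sum (f := fun q : Fin m × Fin m =>
            if (p.Prime ∧ Real.exp (√(Real.log H)) ≤ p ∧
            ∃ h : ℕ, 1 ≤ h ∧ (h : ℝ) ≤ Real.log H ^ B ∧ (p : ℤ) ∣ (b q.2 - b q.1) + h) then (1 : ℝ) / p else 0)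
            (fun q _ => ?_) (mem_univ (i, j)))
          · simp only
            rw [if_pos ⟨c1, c2, h, c3, c4, hij⟩]
          · split_ifs <;> positivity
        · exact sum_nonneg fun q _ => by split_ifs <;> positivity
    _ = ∑ q : Fin m × Fin m, ∑ p ∈ (Icc 1 H).filter (fun p : ℕ => p.Prime ∧ Real.exp (√(Real.log H)) ≤ p ∧
      ∃ h : ℕ, 1 ≤ h ∧ (h : ℝ) ≤ Real.log H ^ B ∧ (p : ℤ) ∣ (b q.2 - b q.1) + h), (1 : ℝ) / p := by
        rw [sum_comm]
        apply sum_congr rfl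
        intro q _
        rw [sum_filter]
    _ ≤ ∑ _q : Fin m × Fin m, η / (m ^ 2 + 1) := sum_le_sum fun q _ => hpair q
    _ = (m : ℝ) ^ 2 * (η / (m ^ 2 + 1)) := by
        rw [sum_const, card_univ, Fintype.card_prod, Fintype.card_fin, nsmul_eq_mul]
        push_cast
        ring
    _ ≤ η := by
        rw [mul_div_assoc', div_le_iff₀ (by positivity)]
        nlinarith

end Pool.Agent.Helper85.SZ
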