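import Pool.Agent.Helper85.SZ.Rich
import Pool.Agent.Helper85.AE.Abs

/-! Progressions in every dense subset of the primes `p` with `p + F_i (m_i)` prime, for almost all vectors `m` and functions
`F_i` whose values have nearly minimal additive energy. -/

set_option autoImplicit false

open Finset Filter Topology

namespace Pool.Agent.Helper85.SZ

open Pool.Agent.H373R2.T7 (singZ Admissible)
open Pool.Agent.W93.TD (HLs)
open Pool.Agent.TH935.GF (En)

open Classical in
/-- one coordinate in a small set -/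
lemma one_coord {k N : ℕ} (i : Fin k) (T : Finset ℕ) :
    (((Fintype.piFinset fun _ : Fin k => Icc 1 N).filter (fun m => m i ∈ T)).card : ℝ) ≤ T.card * (N : ℝ) ^ (k - 1) := by
  have h1 : (Fintype.piFinset fun _ : Fin k => Icc 1 N).filter (fun m => m i ∈ T) ⊆
      Fintype.piFinset (Function.update (fun _ : Fin k => Icc 1 N) i T) := by
    intro m hm
    rw [mem_filter, Fintype.mem_piFinset] at hm
    rw [Fintype.mem_piFinset]
    intro j
    by_cases hj : j = i
    · subst hj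
      rw [Function.update_self]
      exact hm.2
    · rw [Function.update_of_ne hj]
      exact hm.1 j
  have h2 : (Fintype.piFinset (Function.update (fun _ : Fin k => Icc 1 N) i T)).card = T.card * N ^ (k - 1) := by
    rw [Fintype.card_piFinset, ← mul_prod_erase univ _ (mem_univ i), Function.update_self]
    congr 1
    rw [prod_congr rfl (g := fun _ => N) (fun j hj => by
      rw [Function.update_of_ne (ne_of_mem_erase hj), Nat.card_Icc, Nat.add_sub_cancel]), prod_const,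
      card_erase_of_mem (mem_univ i), card_univ, Fintype.card_fin]
  have h3 := card_le_card h1
  rw [h2] at h3
  exact_mod_cast h3

set_option maxHeartbeats 1000000 in
open Classical in
/-- The number of the vectors for which there are not enough progressions. -/
theorem fam_rich (k : ℕ) (hk : 1 ≤ k) : ∃ c : ℝ, 0 < c ∧ ∀ (l : ℕ) (δ : ℝ), 0 < δ → ∃ B : ℕ,
    ∀ F : Fin k → ℕ → ℤ, (∀ i, AE.Fam (F i)) → ∀ (C B₁ : ℕ) (ε : ℝ), 0 < ε → ∃ N₀ : ℕ, ∀ N : ℕ, N₀ ≤ N →
      (((Fintype.piFinset fun _ : Fin k => Icc 1 N).filter (fun m =>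
        (∀ i, (m i : ℝ) / Real.log N ^ C ≤ ((F i (m i) : ℤ) : ℝ) ∧ F i (m i) ≤ B₁ * N) ∧
        Admissible (fun i => F i (m i)) ∧ ¬ Rich c δ l B N (fun i => (F i (m i)).toNat))).card : ℝ) ≤ ε * (N : ℝ) ^ k := by
  obtain ⟨c, hc, hrich⟩ := rich_of k
  refine ⟨c, hc, fun l δ hδ => ?_⟩
  obtain ⟨B, X₁, h1⟩ := hrich l δ hδ
  refine ⟨B, fun F hF C B₁ ε hε => ?_⟩
  have hk0 : (0 : ℝ) < k := by exact_mod_cast hk
  have hk1 : (1 : ℝ) ≤ k := by exact_mod_cast hk
  choose h C₁ x₀ hh hfam using fun i => hF i C (ε / (4 * k)) (by positivity)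
  obtain ⟨X₂, h2⟩ := RP.type_tuples k hk h (fun i => C₁ i + 2 * h i) B₁ 1 (1 / 2) (by norm_num)
  obtain ⟨X₃, h3⟩ := spread_exc k h (fun i => C₁ i + 2 * h i) (2 * B) 1
  obtain ⟨n1, hn1⟩ := Pool.Agent.Helper85.AE.ev_log (4 + 8 * k / ε)
  refine ⟨(∑ i, x₀ i) + X₁ + X₂ + X₃ + n1 + B₁ + 3, fun N hN => ?_⟩
  have hx₀ : ∀ i, x₀ i ≤ N := fun i =>
    (single_le_sum (f := x₀) (fun _ _ => Nat.zero_le _) (mem_univ i)).trans (by omega)
  choose S hSx hSE0 hS3 hSen using fun i => hfam i N (hx₀ i)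
  choose E hE hSE using hSE0
  have hN0 : (0 : ℝ) < N := by exact_mod_cast (by omega : 0 < N)
  obtain ⟨L, hL⟩ : ∃ L, L = Real.log N := ⟨_, rfl⟩
  have hl1 : 4 + 8 * k / ε ≤ L := by rw [hL]; exact hn1 N (by omega)
  have hε8 : 0 < 8 * k / ε := by positivity
  have hl4 : 4 ≤ L := by linarith
  have hL0 : 0 < L := by linarith
  have hlε : 8 * k ≤ ε * L := by
    have : 8 * k / ε ≤ L := by linarith
    rw [div_le_iff₀ hε] at this
    linarith
  have hNk : (N : ℝ) ^ k = N * (N : ℝ) ^ (k - 1) := by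
    rw [← pow_succ']
    congr 1
    omega
  have hNk1 : (0 : ℝ) ≤ (N : ℝ) ^ (k - 1) := by positivity
  have hNk0 : (0 : ℝ) ≤ (N : ℝ) ^ k := by positivity
  obtain ⟨S₁, hS₁⟩ : ∃ S₁ : Fin k → Finset ℕ, S₁ = fun i => (S i).filter (fun m : ℕ => 0 ≤ F i m ∧ F i m ≤ B₁ * N) := ⟨_, rfl⟩
  have hS₁m : ∀ i m, m ∈ S₁ i → m ∈ S i ∧ 0 ≤ F i m ∧ F i m ≤ B₁ * N := by
    intro i m hm
    rw [hS₁] at hm
    exact mem_filter.1 hm
  obtain ⟨Q, hQ⟩ : ∃ Q : (Fin k → ℕ) → Prop, Q = fun m => Admissible (fun i => F i (m i)) ∧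
    ¬ Rich c δ l B N (fun i => (F i (m i)).toNat) := ⟨_, rfl⟩
  obtain ⟨Y, hY⟩ : ∃ Y, Y = (Fintype.piFinset S₁).filter Q := ⟨_, rfl⟩
  rw [← hL]
  have hsub : (Fintype.piFinset fun _ : Fin k => Icc 1 N).filter (fun m =>
        (∀ i, (m i : ℝ) / L ^ C ≤ ((F i (m i) : ℤ) : ℝ) ∧ F i (m i) ≤ B₁ * N) ∧
        Admissible (fun i => F i (m i)) ∧ ¬ Rich c δ l B N (fun i => (F i (m i)).toNat)) ⊆
      (univ.biUnion fun i => (Fintype.piFinset fun _ : Fin k => Icc 1 N).filter (fun m => m i ∈ E i)) ∪ Y := by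
    intro m hm
    rw [mem_filter] at hm
    obtain ⟨hm1, hm2, hm3⟩ := hm
    have hm1' := hm1
    rw [Fintype.mem_piFinset] at hm1'
    rw [mem_union, mem_biUnion]
    by_cases hex : ∃ i, m i ∈ E i
    · obtain ⟨i, hi⟩ := hex
      left
      exact ⟨i, mem_univ i, mem_filter.2 ⟨hm1, hi⟩⟩
    · right
      push Not at hex
      rw [hY, mem_filter, Fintype.mem_piFinset, hQ]
      refine ⟨fun i => ?_, hm3⟩
      rw [hS₁, mem_filter]
      obtain ⟨a1, a2⟩ := hm2 i
      have a3 : (0 : ℝ) ≤ ((F i (m i) : ℤ) : ℝ) := le_trans (by positivity) a1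
      refine ⟨?_, by exact_mod_cast a3, a2⟩
      by_contra hmS
      apply hex i
      apply hSE i (m i) (hm1' i) hmS
      rw [← hL]
      exact a1.trans (le_abs_self _)
  have hfirst : ((univ.biUnion fun i => (Fintype.piFinset fun _ : Fin k => Icc 1 N).filter
      (fun m => m i ∈ E i)).card : ℝ) ≤ ε / 4 * (N : ℝ) ^ k := by
    calc _ ≤ ∑ i, (((Fintype.piFinset fun _ : Fin k => Icc 1 N).filter (fun m => m i ∈ E i)).card : ℝ) := by
          exact_mod_cast card_biUnion_le
      _ ≤ ∑ _i : Fin k, (ε / (4 * k) * N) * (N : ℝ) ^ (k - 1) := sum_le_sum fun i _ =>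
          (one_coord i (E i)).trans (mul_le_mul_of_nonneg_right (hE i) hNk1)
      _ = ε / 4 * (N : ℝ) ^ k := by
          rw [sum_const, card_univ, Fintype.card_fin, nsmul_eq_mul, hNk]
          field_simp
  have hSc : ∀ i, ((S₁ i).card : ℝ) ≤ N := by
    intro i
    have h1 : S₁ i ⊆ Icc 1 N := fun m hm => hSx i (hS₁m i m hm).1
    have := card_le_card h1
    rw [Nat.card_Icc, Nat.add_sub_cancel] at this
    exact_mod_cast this
  have hprod : ∏ i, ((S₁ i).card : ℝ) ≤ (N : ℝ) ^ k := by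
    calc ∏ i, ((S₁ i).card : ℝ) ≤ ∏ _i : Fin k, (N : ℝ) := prod_le_prod (fun i _ => Nat.cast_nonneg _) (fun i _ => hSc i)
      _ = (N : ℝ) ^ k := by rw [prod_const, card_univ, Fintype.card_fin]
  have hsecond : (Y.card : ℝ) ≤ ε / 4 * (N : ℝ) ^ k := by
    by_cases hsm : ∃ i, ((S₁ i).card : ℝ) ≤ ε / (4 * k) * N
    · obtain ⟨i, hi⟩ := hsm
      have h1 : Y ⊆ (Fintype.piFinset fun _ : Fin k => Icc 1 N).filter (fun m => m i ∈ S₁ i) := by
        intro m hm
        rw [hY, mem_filter, Fintype.mem_piFinset] at hm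
        rw [mem_filter, Fintype.mem_piFinset]
        exact ⟨fun j => hSx j (hS₁m j _ (hm.1 j)).1, hm.1 i⟩
      have h2 : (Y.card : ℝ) ≤ (S₁ i).card * (N : ℝ) ^ (k - 1) :=
        le_trans (by exact_mod_cast card_le_card h1) (one_coord i (S₁ i))
      have h3 : ε / (4 * k) * N ≤ ε / 4 * N := by
        apply mul_le_mul_of_nonneg_right _ hN0.le
        apply div_le_div_of_nonneg_left hε.le (by norm_num)
        linarith
      rw [hNk, ← mul_assoc]
      refine h2.trans (mul_le_mul_of_nonneg_right (hi.trans h3) hNk1)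
    · push Not at hsm
      have hen : ∀ i, (En (h i) (fun m : {m // m ∈ S₁ i} => F i m.1) : ℝ) * N ≤
          Real.log N ^ (C₁ i + 2 * h i) * (Fintype.card {m // m ∈ S₁ i} : ℝ) ^ (2 * h i) := by
        intro i
        have h1 : En (h i) (fun m : {m // m ∈ S₁ i} => F i m.1) ≤ En (h i) (fun m : {m // m ∈ S i} => F i m.1) := by
          apply Pool.Agent.Helper85.AE.En_mono (h i) _ _
            (fun m : {m // m ∈ S₁ i} => (⟨m.1, (hS₁m i m.1 m.2).1⟩ : {m // m ∈ S i}))
          · intro a b hab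
            have h7 : a.1 = b.1 := congrArg (fun t : {m // m ∈ S i} => t.1) hab
            exact Subtype.ext h7
          · intro m
            rfl
        have h2 : (En (h i) (fun m : {m // m ∈ S₁ i} => F i m.1) : ℝ) * N ≤ Real.log N ^ C₁ i * (N : ℝ) ^ (2 * h i) :=
          le_trans (mul_le_mul_of_nonneg_right (by exact_mod_cast h1) hN0.le) (hSen i)
        refine h2.trans ?_
        rw [← hL, Fintype.card_coe]
        have h3 : (N : ℝ) ≤ L * (S₁ i).card := by
          have h4 : L * (ε / (4 * k) * N) ≤ L * (S₁ i).card := mul_le_mul_of_nonneg_left (hsm i).le hL0.le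
          have h5 : 8 * k * (N : ℝ) ≤ ε * L * N := mul_le_mul_of_nonneg_right hlε hN0.le
          have h6 : L * (ε / (4 * k) * N) = ε * L * N / (4 * k) := by ring
          rw [h6] at h4
          refine le_trans ?_ h4
          rw [le_div_iff₀ (by positivity)]
          nlinarith
        calc L ^ C₁ i * (N : ℝ) ^ (2 * h i) ≤ L ^ C₁ i * (L * (S₁ i).card) ^ (2 * h i) := by gcongr
          _ = L ^ (C₁ i + 2 * h i) * ((S₁ i).card : ℝ) ^ (2 * h i) := by
              rw [mul_pow]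
              ring
      have g2 := h2 N (by omega) (fun i => {m // m ∈ S₁ i}) (fun i m => F i m.1)
        (fun i m => (hS₁m i m.1 m.2).2.2) hen
        (univ.filter (fun m : ∀ i, {m // m ∈ S₁ i} => (∀ i, 0 ≤ F i (m i).1) ∧
          ¬ HLs (1 / 2) 1 N (fun i => (F i (m i).1).toNat))) (fun m hm => (mem_filter.1 hm).2)
      have g3 := h3 N (by omega) (fun i => {m // m ∈ S₁ i}) (fun i m => F i m.1) hen
      rw [← hL] at g2 g3
      simp only [Fintype.card_coe, pow_one] at g2 g3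
      obtain ⟨D₁, hD₁⟩ : ∃ D₁, D₁ = univ.filter (fun m : ∀ i, {m // m ∈ S₁ i} => (∀ i, 0 ≤ F i (m i).1) ∧
          ¬ HLs (1 / 2) 1 N (fun i => (F i (m i).1).toNat)) := ⟨_, rfl⟩
      obtain ⟨D₂, hD₂⟩ : ∃ D₂, D₂ = univ.filter (fun m : ∀ i, {m // m ∈ S₁ i} =>
        ¬ ((∀ i, L ^ (2 * B) < |((F i (m i).1 : ℤ) : ℝ)|) ∧
        ∀ i j, i ≠ j → L ^ (2 * B) < |((F i (m i).1 : ℤ) : ℝ) - ((F j (m j).1 : ℤ) : ℝ)|)) := ⟨_, rfl⟩
      rw [← hD₁] at g2
      rw [← hD₂] at g3
      have hYs : Y ⊆ (D₁ ∪ D₂).image (fun m i => (m i).1) := by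
        intro m hm
        rw [hY, mem_filter, Fintype.mem_piFinset, hQ] at hm
        obtain ⟨hm1, hadm, hnr⟩ := hm
        rw [mem_image]
        refine ⟨fun i => ⟨m i, hm1 i⟩, ?_, rfl⟩
        rw [mem_union, hD₁, hD₂, mem_filter, mem_filter]
        by_contra hcon
        push Not at hcon
        obtain ⟨c1, c2⟩ := hcon
        have hnn : ∀ i, 0 ≤ F i (m i) := fun i => (hS₁m i _ (hm1 i)).2.1
        have hHL := c1 (mem_univ _) hnn
        obtain ⟨c3, c4⟩ := c2 (mem_univ _)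
        apply hnr
        have hcast : ∀ i, (((F i (m i)).toNat : ℕ) : ℤ) = F i (m i) := fun i => Int.toNat_of_nonneg (hnn i)
        have hcastr : ∀ i, (((F i (m i)).toNat : ℕ) : ℝ) = ((F i (m i) : ℤ) : ℝ) := fun i => by
          have := hcast i
          exact_mod_cast congrArg (fun z : ℤ => (z : ℝ)) this
        refine h1 N (by omega) 1 _ (fun i => ?_) ⟨fun i => ?_, fun i j hij => ?_⟩ hHL ?_
        · have d1 := (hS₁m i _ (hm1 i)).2.2
          have d2 : (((F i (m i)).toNat : ℕ) : ℤ) ≤ ((N ^ 2 : ℕ) : ℤ) := by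
            rw [hcast]
            refine d1.trans ?_
            have d3 : B₁ * N ≤ N ^ 2 := by
              rw [sq]
              exact Nat.mul_le_mul_right _ (by omega)
            exact_mod_cast d3
          exact_mod_cast d2
        · rw [← hL, hcastr]
          have := c3 i
          rwa [abs_of_nonneg (by exact_mod_cast hnn i)] at this
        · rw [← hL, hcastr, hcastr]
          exact c4 i j hij
        · simp only [hcast]
          exact hadm
      have hYc : (Y.card : ℝ) ≤ D₁.card + D₂.card := by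
        have := (card_le_card hYs).trans (card_image_le.trans (card_union_le _ _))
        exact_mod_cast this
      refine hYc.trans ((add_le_add g2 g3).trans ?_)
      have e : (∏ i, ((S₁ i).card : ℝ)) / L ≤ ε / 8 * (N : ℝ) ^ k := by
        rw [div_le_iff₀ hL0]
        have e1 : 1 ≤ ε / 8 * L := by linarith
        calc ∏ i, ((S₁ i).card : ℝ) ≤ 1 * (N : ℝ) ^ k := by rw [one_mul]; exact hprod
          _ ≤ (ε / 8 * L) * (N : ℝ) ^ k := mul_le_mul_of_nonneg_right e1 hNk0
          _ = ε / 8 * (N : ℝ) ^ k * L := by ring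
      linarith
  have hcard : (((Fintype.piFinset fun _ : Fin k => Icc 1 N).filter (fun m =>
        (∀ i, (m i : ℝ) / L ^ C ≤ ((F i (m i) : ℤ) : ℝ) ∧ F i (m i) ≤ B₁ * N) ∧
        Admissible (fun i => F i (m i)) ∧ ¬ Rich c δ l B N (fun i => (F i (m i)).toNat))).card : ℝ) ≤
      ((univ.biUnion fun i => (Fintype.piFinset fun _ : Fin k => Icc 1 N).filter
      (fun m => m i ∈ E i)).card : ℝ) + Y.card := by
    exact_mod_cast (card_le_card hsub).trans (card_union_le _ _)
  have h9 : 0 ≤ ε * (N : ℝ) ^ k := by positivity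
  linarith

end Pool.Agent.Helper85.SZ
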