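import Pool.Agent.Helper85.SZ.Bad
import Pool.Agent.K3h89.SX.Top

/-! Szemerédi's theorem relative to the primes `p` with `p + a i` prime, for well spaced shifts `a i`, uniformly in the
shifts. -/

set_option autoImplicit false

open Finset Filter Topology

namespace Pool.Agent.Helper85.SZ

open Pool.Agent.TH423.SH (PS)
open Pool.Agent.Y677.RSZ (rt V ev_log)
open Pool.Agent.K3h89.SZ (SysP CF strip)
open Pool.Agent.H373R2.T7 (singZ Admissible)

/-- the shifts are larger than `R` and at distances larger than `R` -/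
def Spread {k : ℕ} (R : ℝ) (a : Fin k → ℕ) : Prop :=
  (∀ i, R < a i) ∧ ∀ i j, i ≠ j → R < |(a i : ℝ) - a j|

/-- the limit of the partial products of the singular series -/
lemma sing_lim {k : ℕ} (a : Fin k → ℤ) (ha : ∀ i, a i ≠ 0) (hab : ∀ i j, i ≠ j → a i ≠ a j) (S : ℝ)
    (hS : Tendsto (fun z => singZ a z) atTop (nhds S)) (z : ℕ) (hz : 3 * (k + 1) ≤ z) (hz2 : 2 * (k + 1) ^ 2 ≤ z) :
    singZ a z ≤ 2 * S := by
  have hs := Pool.Agent.H373R2.T7.singZ_nonneg a z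
  have h1 : ∀ z' : ℕ, z ≤ z' → singZ a z / 2 ≤ singZ a z' := by
    intro z' hz'
    obtain ⟨R, hR, hR1, -⟩ := Pool.Agent.H373R2.T7.tail_bound a ha hab z z' hz hz'
    have h2 : (1 : ℝ) / 2 ≤ R := by
      refine le_trans ?_ hR1
      have h3 := Real.add_one_le_exp (-((((k + 1 : ℕ) : ℝ)) ^ 2 / z))
      have h4 : (((k + 1 : ℕ) : ℝ)) ^ 2 / z ≤ 1 / 2 := by
        rw [div_le_iff₀ (by exact_mod_cast (by omega : 0 < z))]
        have : (2 * (((k + 1 : ℕ) : ℝ)) ^ 2) ≤ z := by exact_mod_cast hz2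
        linarith
      linarith
    rw [hR]
    nlinarith
  have h5 := ge_of_tendsto hS (eventually_atTop.2 ⟨z, h1⟩)
  linarith

set_option maxHeartbeats 1600000 in
open Classical in
/-- **Szemerédi's theorem relative to prime tuples with well spaced shifts.** -/
theorem rel (k l : ℕ) (δ : ℝ) (hδ : 0 < δ) : ∃ B X₀ : ℕ, ∀ X : ℕ, X₀ ≤ X → ∀ a : Fin k → ℕ,
    (∀ i, a i ≤ X ^ 2) → Spread (Real.log X ^ (2 * B)) a → Admissible (fun i => (a i : ℤ)) →
    ∀ S : ℝ, Tendsto (fun z => singZ (fun i => (a i : ℤ)) z) atTop (nhds S) →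
    ∀ T : Finset ℕ, (∀ p ∈ T, p ≤ X ∧ p.Prime ∧ ∀ i, (p + a i).Prime) →
    δ * (S * (X / Real.log X ^ (k + 1))) ≤ T.card →
    ∃ n d : ℕ, 1 ≤ d ∧ (d : ℝ) ≤ Real.log X ^ B ∧ ∀ i < l, n + i * d ∈ T := by
  obtain ⟨c, hc, hlow⟩ := Pool.Agent.H373R2.T7.singZ_low k
  obtain ⟨g, hg⟩ : ∃ g : ℕ, g = 3 * (k + 1) := ⟨_, rfl⟩
  obtain ⟨εE, hεE, B, H₂, hE⟩ := Pool.Agent.K3h89.SX.engX_all (max l 2) g (1 / 4) (δ / 8) (le_max_right _ _)
    (by norm_num) (by positivity)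
  obtain ⟨H₃, hX⟩ := bad (k + 1) 2 B εE hεE
  obtain ⟨H₄, hL⟩ := lar (k + 1) 2 B (1 / (4 * ((g : ℝ) + 1))) (by positivity)
  have hcast : Tendsto (fun H : ℕ => (H : ℝ)) atTop atTop := tendsto_natCast_atTop_atTop
  have hlog : Tendsto (fun H : ℕ => Real.log (H : ℝ)) atTop atTop :=
    Real.tendsto_log_atTop.comp hcast
  have hsq : Tendsto (fun H : ℕ => √(Real.log (H : ℝ))) atTop atTop :=
    Real.tendsto_sqrt_atTop.comp hlog
  obtain ⟨n₀, hn₀⟩ := eventually_atTop.1 (((hlog.eventually_ge_atTop 1).and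
    (hsq.eventually_ge_atTop (2 * ((g : ℝ) + 1)))).and (ev_log (k + 1) (2 / (δ * c)) (3 / 4) (by norm_num)))
  refine ⟨B, n₀ + H₂ + H₃ + H₄ + 3 * (k + 1) + 2 * (k + 1) ^ 2 + 2, fun X hX0 a ha hsp hadm S hS T hT hTc => ?_⟩
  obtain ⟨⟨n1, n2⟩, n3⟩ := hn₀ X (by omega)
  have hX2 : 2 ≤ X := by omega
  have hXr : (2 : ℝ) ≤ X := by exact_mod_cast hX2
  have hXp : (0 : ℝ) < X := by linarith
  obtain ⟨L, hLd⟩ : ∃ L, L = Real.log (X : ℝ) := ⟨_, rfl⟩
  have hL1 : 1 ≤ L := by rw [hLd]; exact n1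
  have hL0 : 0 < L := by linarith
  have ha0 : ∀ i, ((a i : ℕ) : ℤ) ≠ 0 := by
    intro i h0
    have h1 := hsp.1 i
    have h2 : a i = 0 := by exact_mod_cast h0
    rw [h2, Nat.cast_zero, ← hLd] at h1
    have : 0 ≤ L ^ (2 * B) := by positivity
    linarith
  have hab : ∀ i j, i ≠ j → ((a i : ℕ) : ℤ) ≠ (a j : ℕ) := by
    intro i j hij h0
    have h1 := hsp.2 i j hij
    have h2 : a i = a j := by exact_mod_cast h0
    rw [h2, sub_self, abs_zero, ← hLd] at h1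
    have : 0 ≤ L ^ (2 * B) := by positivity
    linarith
  have hsing := sing_lim (fun i => (a i : ℤ)) ha0 hab S hS X (by omega) (by omega)
  have hSc : c ≤ S := ge_of_tendsto' hS fun z => hlow _ hadm z
  have hS0 : 0 < S := by linarith
  obtain ⟨b, hb⟩ : ∃ b : Fin (k + 1) → ℤ, b = Fin.cons 0 (fun i => (a i : ℤ)) := ⟨_, rfl⟩
  have hb0 : b 0 = 0 := by rw [hb]; rfl
  have hbs : ∀ i : Fin k, b i.succ = a i := fun i => by rw [hb]; rfl
  have hbn : ∀ i, 0 ≤ b i ∧ b i ≤ (X : ℤ) ^ 2 := by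
    intro i
    refine Fin.cases ?_ (fun j => ?_) i
    · rw [hb0]; exact ⟨le_rfl, by positivity⟩
    · rw [hbs]; exact ⟨by positivity, by exact_mod_cast ha j⟩
  have hbb : ∀ i, |b i| ≤ (X : ℤ) ^ 2 := fun i => by rw [abs_of_nonneg (hbn i).1]; exact (hbn i).2
  have hbsp : ∀ i j, i ≠ j → Real.log X ^ (2 * B) < |((b i - b j : ℤ) : ℝ)| := by
    intro i j
    refine Fin.cases ?_ (fun i' => ?_) i <;> refine Fin.cases ?_ (fun j' => ?_) j
    · intro h; exact absurd rfl h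
    · intro _
      rw [hb0, hbs]
      have h1 := hsp.1 j'
      push_cast
      rw [zero_sub, abs_neg, abs_of_nonneg (by positivity)]
      exact h1
    · intro _
      rw [hb0, hbs]
      have h1 := hsp.1 i'
      push_cast
      rw [sub_zero, abs_of_nonneg (by positivity)]
      exact h1
    · intro h
      rw [hbs, hbs]
      push_cast
      exact hsp.2 i' j' fun h' => h (by rw [h'])
  have hsys : SysP g (Fb b) := by
    apply fb_sys b (by omega)
    intro p hp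
    obtain ⟨r, h1, h2⟩ := hadm p hp
    refine ⟨r, fun i => ?_⟩
    refine Fin.cases ?_ (fun j => ?_) i
    · rw [hb0, add_zero]; exact h1
    · rw [hbs]; exact h2 j
  -- the stripped function
  obtain ⟨bd, hbd⟩ : ∃ bd : ℕ → Prop, bd = fun p : ℕ => Real.exp (√(Real.log X)) ≤ p ∧
    ∃ h : ℕ, 1 ≤ h ∧ (h : ℝ) ≤ Real.log X ^ B ∧ CF (Fb b) h p := ⟨_, rfl⟩
  obtain ⟨F, hF⟩ : ∃ F : ℤ → ℤ, F = strip (Fb b) X bd := ⟨_, rfl⟩
  obtain ⟨s1, s2, s3, s4⟩ := Pool.Agent.K3h89.SZ.stripP g (Fb b) X bd hsys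
  rw [← hF] at s1 s2 s3 s4
  have hCF : ∀ h p : ℕ, p.Prime → CF F h p → CF (Fb b) h p ∧ ¬ bd p := by
    rintro h p hp ⟨x, hx, hx'⟩
    have g1 := (s2 x p hp).1 hx
    have g2 := (s2 (x + h) p hp).1 hx'
    exact ⟨⟨x, g1.2.2, g2.2.2⟩, g1.2.1⟩
  have hVb : V F 1 X ≤ 2 * V (Fb b) 1 X := by
    apply s4
    · refine le_trans (le_of_eq ?_) (hL X (by omega) b hbb hbsp)
      apply sum_congr _ (fun _ _ => rfl)
      ext p
      simp only [mem_filter, hbd]
    · intro p hp hbp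
      rw [hbd] at hbp
      have h1 : 2 * ((g : ℝ) + 1) ≤ p := by
        refine n2.trans (le_trans ?_ hbp.1)
        have := Real.add_one_le_exp (√(Real.log X))
        linarith
      exact_mod_cast h1
  have hVK : V (Fb b) 1 X ≤ singZ (fun i => (a i : ℤ)) X / L ^ (k + 1) := by
    rw [hb, hLd]
    exact V_le _ X hX2
  have hVS : V F 1 X ≤ 4 * (S / L ^ (k + 1)) := by
    have h1 : singZ (fun i => (a i : ℤ)) X / L ^ (k + 1) ≤ 2 * S / L ^ (k + 1) :=
      div_le_div_of_nonneg_right hsing (by positivity)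
    have h2 : 2 * S / L ^ (k + 1) = 2 * (S / L ^ (k + 1)) := by ring
    linarith
  -- the subset
  obtain ⟨A, hA⟩ : ∃ A, A = T.filter (fun p : ℕ => (X : ℝ) ^ (1 / 4 : ℝ) < p) := ⟨_, rfl⟩
  have hAc : (T.card : ℝ) ≤ A.card + (X : ℝ) ^ (1 / 4 : ℝ) := by
    have h1 : T.card = A.card + (T.filter (fun p : ℕ => ¬ (X : ℝ) ^ (1 / 4 : ℝ) < p)).card := by
      rw [hA]
      exact (card_filter_add_card_filter_not _).symm
    have h2 : (T.filter (fun p : ℕ => ¬ (X : ℝ) ^ (1 / 4 : ℝ) < p)).card ≤ ⌊(X : ℝ) ^ (1 / 4 : ℝ)⌋₊ := by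
      have h3 : T.filter (fun p : ℕ => ¬ (X : ℝ) ^ (1 / 4 : ℝ) < p) ⊆ Icc 1 ⌊(X : ℝ) ^ (1 / 4 : ℝ)⌋₊ := by
        intro p hp
        rw [mem_filter, not_lt] at hp
        rw [mem_Icc]
        exact ⟨(hT p hp.1).2.1.one_lt.le, Nat.le_floor hp.2⟩
      have h4 := card_le_card h3
      rwa [Nat.card_Icc, Nat.add_sub_cancel] at h4
    have h3 : ((T.filter (fun p : ℕ => ¬ (X : ℝ) ^ (1 / 4 : ℝ) < p)).card : ℝ) ≤ (X : ℝ) ^ (1 / 4 : ℝ) :=
      (Nat.cast_le.2 h2).trans (Nat.floor_le (by positivity))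
    rw [h1]
    push_cast
    linarith
  have hden : δ / 8 * (X * V F 1 X) ≤ A.card := by
    have h1 : (X : ℝ) ^ (1 / 4 : ℝ) ≤ δ / 2 * (S * (X / L ^ (k + 1))) := by
      have e1 : (X : ℝ) = (X : ℝ) ^ (1 / 4 : ℝ) * (X : ℝ) ^ (3 / 4 : ℝ) := by
        rw [← Real.rpow_add hXp]; norm_num
      rw [← hLd] at n3
      have h2 : 2 / (δ * c) * L ^ (k + 1) * (X : ℝ) ^ (1 / 4 : ℝ) ≤ X := by
        calc 2 / (δ * c) * L ^ (k + 1) * (X : ℝ) ^ (1 / 4 : ℝ) ≤ (X : ℝ) ^ (3 / 4 : ℝ) * (X : ℝ) ^ (1 / 4 : ℝ) :=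
              mul_le_mul_of_nonneg_right n3 (by positivity)
          _ = X := by rw [← Real.rpow_add hXp]; norm_num
      have h3 : (X : ℝ) ^ (1 / 4 : ℝ) ≤ δ / 2 * (c * (X / L ^ (k + 1))) := by
        have h4 : (X : ℝ) ^ (1 / 4 : ℝ) = δ / 2 * (c * ((2 / (δ * c) * L ^ (k + 1) * (X : ℝ) ^ (1 / 4 : ℝ)) / L ^ (k + 1))) := by
          field_simp
        rw [h4]
        gcongr
      refine h3.trans ?_
      gcongr
    have h2 : δ / 8 * (X * V F 1 X) ≤ δ / 2 * (S * (X / L ^ (k + 1))) := by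
      calc δ / 8 * (X * V F 1 X) ≤ δ / 8 * (X * (4 * (S / L ^ (k + 1)))) := by gcongr
        _ = δ / 2 * (S * (X / L ^ (k + 1))) := by ring
    rw [← hLd] at hTc
    have h3 : δ * (S * (X / L ^ (k + 1))) = δ / 2 * (S * (X / L ^ (k + 1))) + δ / 2 * (S * (X / L ^ (k + 1))) := by ring
    linarith
  obtain ⟨n, d, hd1, hd2, hAP⟩ := hE F 0 X A s1 (by omega)
    (by
      intro x hx
      rw [mem_Ioc, zero_add] at hx
      have hpos : ∀ i, 0 < (x : ℤ) + b i ∧ (x : ℤ) + b i ≤ (X : ℤ) ^ 3 := by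
        intro i
        have h1 := hbn i
        have h2 : (1 : ℤ) ≤ x := by exact_mod_cast hx.1
        have h3 : (x : ℤ) ≤ X := by exact_mod_cast hx.2
        have h4 : (2 : ℤ) ≤ X := by exact_mod_cast hX2
        refine ⟨by omega, ?_⟩
        have h5 : (x : ℤ) + b i ≤ X + (X : ℤ) ^ 2 := by linarith [h1.2]
        nlinarith
      have hne : Fb b (x : ℤ) ≠ 0 := by
        unfold Fb
        exact prod_ne_zero_iff.2 fun i _ => (hpos i).1.ne'
      obtain ⟨g1, g2⟩ := s3 x hne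
      refine ⟨g1, g2.trans ?_⟩
      unfold Fb
      rw [abs_prod]
      calc ∏ i, |(x : ℤ) + b i| ≤ ∏ _i : Fin (k + 1), (X : ℤ) ^ 3 := by
            apply prod_le_prod (fun i _ => abs_nonneg _)
            intro i _
            rw [abs_of_pos (hpos i).1]
            exact (hpos i).2
        _ = (X : ℤ) ^ g := by
            rw [prod_const, card_univ, Fintype.card_fin, ← pow_mul, hg])
    (by
      intro W N hW1 hW2 hN1 hN2 hWp
      refine le_trans ?_ (hX X (by omega) b hbb hbsp W N hW1 hW2 hN1 hN2 hWp)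
      rw [Nat.cast_le]
      apply card_le_card
      intro j hj
      rw [mem_filter] at hj ⊢
      refine ⟨hj.1, lt_of_lt_of_le hj.2 ?_⟩
      apply sum_le_sum_of_subset_of_nonneg
      · intro p hp
        rw [mem_filter] at hp ⊢
        have hp1 := hp.1
        unfold PS at hp1
        rw [mem_filter] at hp1
        exact ⟨hp.1, (hCF _ p hp1.2.1 hp.2).1⟩
      · intro p _ _
        positivity)
    (by
      intro h hh1 hh2 p hp hpe hcf
      obtain ⟨g1, g2⟩ := hCF h p hp hcf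
      apply g2
      rw [hbd]
      exact ⟨hpe, h, hh1, hh2, g1⟩)
    (by
      intro p hp
      rw [hA, mem_filter] at hp
      rw [mem_Ioc, zero_add]
      have h1 := hT p hp.1
      exact ⟨h1.2.1.pos, h1.1⟩)
    (by
      intro p hp q hq hqH hqd
      rw [hA, mem_filter] at hp
      obtain ⟨hpT, hpX⟩ := hp
      obtain ⟨hp1, hp2, hp3⟩ := hT p hpT
      have g1 := ((s2 p q hq).1 hqd).2.2
      rw [fb_dvd b hq] at g1
      obtain ⟨i, hi⟩ := g1
      revert hi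
      refine Fin.cases ?_ (fun j => ?_) i
      · intro hi
        rw [hb0, add_zero, Int.natCast_dvd_natCast] at hi
        have h2 := (Nat.prime_dvd_prime_iff_eq hq hp2).1 hi
        rw [h2] at hqH
        linarith
      · intro hi
        rw [hbs] at hi
        have hi' : q ∣ p + a j := by exact_mod_cast hi
        have h2 := (Nat.prime_dvd_prime_iff_eq hq (hp3 j)).1 hi'
        have h3 : (p : ℝ) ≤ q := by rw [h2]; push_cast; linarith [Nat.cast_nonneg (α := ℝ) (a j)]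
        linarith)
    hden
  refine ⟨n, d, hd1, hd2, fun i hi => ?_⟩
  have := hAP i (lt_of_lt_of_le hi (le_max_left _ _))
  rw [hA, mem_filter] at this
  exact this.1

end Pool.Agent.Helper85.SZ
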