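import Pool.Agent.Helper85.AE.Tup

/-! In families of integers with nearly minimal additive energy few tuples of members are close to each other or to
zero. -/

set_option autoImplicit false

open Finset

namespace Pool.Agent.Helper85.SZ

open Pool.Agent.TH935.GF (En)

open Classical in
/-- the members of a family with a given value -/
lemma fiber_pow (h : ℕ) {ι : Type} [Fintype ι] (v : ι → ℤ) (y : ℤ) :
    (univ.filter (fun x => v x = y)).card ^ (2 * h) ≤ En h v := by
  unfold En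
  rw [Nat.card_eq_fintype_card]
  have h1 : (univ.filter (fun x => v x = y)).card = Fintype.card {x : ι // v x = y} := by
    rw [Fintype.card_subtype]
  rw [h1]
  have h2 : Fintype.card {x : ι // v x = y} ^ (2 * h) =
      Fintype.card ((Fin h → {x : ι // v x = y}) × (Fin h → {x : ι // v x = y})) := by
    rw [Fintype.card_prod, Fintype.card_fun, Fintype.card_fin, ← pow_add]
    congr 1
    ring
  rw [h2]
  apply Fintype.card_le_of_injective (fun q => ⟨(fun j => (q.1 j).1, fun j => (q.2 j).1), by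
    simp only
    rw [sum_congr rfl (fun j _ => (q.1 j).2), sum_congr rfl (fun j _ => (q.2 j).2)]⟩)
  intro q q' hq
  simp only [Subtype.mk.injEq, Prod.mk.injEq] at hq
  apply Prod.ext
  · funext j
    exact Subtype.ext (congrFun hq.1 j)
  · funext j
    exact Subtype.ext (congrFun hq.2 j)

open Classical in
/-- few members of a family of small energy are close to a given integer -/
lemma near_one (h C R V : ℕ) : ∃ X₀ : ℕ, ∀ X : ℕ, X₀ ≤ X → ∀ (ι : Type) [Fintype ι] (v : ι → ℤ),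
    (En h v : ℝ) * X ≤ Real.log X ^ C * (Fintype.card ι : ℝ) ^ (2 * h) → ∀ y : ℤ,
    ((univ.filter (fun x => |((v x - y : ℤ) : ℝ)| ≤ Real.log X ^ R)).card : ℝ) ≤ Fintype.card ι / Real.log X ^ V := by
  obtain ⟨n1, hn1⟩ := Pool.Agent.Helper85.AE.ev_log 1
  obtain ⟨n2, hn2⟩ := Pool.Agent.Helper85.AE.ev_pow 1 (by norm_num) (C + 2 * h * (R + V)) (2 * 3 ^ (2 * h))
  refine ⟨n1 + n2 + 1, fun X hX ι _ v hE y => ?_⟩
  obtain ⟨L, hL⟩ : ∃ L, L = Real.log (X : ℝ) := ⟨_, rfl⟩
  have hL1 : 1 ≤ L := by rw [hL]; exact hn1 X (by omega)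
  have hL0 : 0 < L := by linarith
  have hX2 := hn2 X (by omega)
  rw [Real.rpow_one] at hX2
  rw [← hL] at hX2 hE ⊢
  have hX0 : (0 : ℝ) < X := by exact_mod_cast (by omega : 0 < X)
  have hLR : 1 ≤ L ^ R := one_le_pow₀ hL1
  obtain ⟨J, hJ⟩ : ∃ J : ℕ, J = ⌊L ^ R⌋₊ := ⟨_, rfl⟩
  have hJ1 : (J : ℝ) ≤ L ^ R := by rw [hJ]; exact Nat.floor_le (by positivity)
  have hJ2 : L ^ R < J + 1 := by rw [hJ]; exact Nat.lt_floor_add_one _
  obtain ⟨M, hM⟩ : ∃ M : ℝ, M = 3 * L ^ (R + V) := ⟨_, rfl⟩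
  have hM0 : 0 < M := by rw [hM]; positivity
  have hfib : ∀ z : ℤ, ((univ.filter (fun x => v x = z)).card : ℝ) ≤ Fintype.card ι / M := by
    intro z
    by_contra hcon
    push Not at hcon
    have hc0 : (0 : ℝ) < Fintype.card ι := by
      have h1 : (0 : ℝ) ≤ Fintype.card ι := Nat.cast_nonneg _
      rcases h1.lt_or_eq with h2 | h2
      · exact h2
      · exfalso
        rw [← h2, zero_div] at hcon
        have h3 : ((univ.filter (fun x => v x = z)).card : ℝ) ≤ Fintype.card ι := by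
          exact_mod_cast card_le_univ _
        rw [← h2] at h3
        linarith
    have h1 : ((Fintype.card ι : ℝ) / M) ^ (2 * h) ≤ (En h v : ℝ) := by
      refine (pow_le_pow_left₀ (by positivity) hcon.le _).trans ?_
      exact_mod_cast fiber_pow h v z
    have h2 : ((Fintype.card ι : ℝ) / M) ^ (2 * h) * X ≤ L ^ C * (Fintype.card ι : ℝ) ^ (2 * h) :=
      (mul_le_mul_of_nonneg_right h1 hX0.le).trans hE
    have h3 : L ^ C * M ^ (2 * h) ≤ X / 2 := by
      have e : L ^ C * M ^ (2 * h) = (2 * 3 ^ (2 * h) * L ^ (C + 2 * h * (R + V))) / 2 := by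
        rw [hM, mul_pow, ← pow_mul, pow_add L C, show (R + V) * (2 * h) = 2 * h * (R + V) by ring]
        ring
      rw [e]
      linarith
    have h4 : (X : ℝ) ≤ L ^ C * M ^ (2 * h) := by
      rw [div_pow] at h2
      have hcp : 0 < (Fintype.card ι : ℝ) ^ (2 * h) := by positivity
      have hMp : 0 < M ^ (2 * h) := by positivity
      have h5 : (Fintype.card ι : ℝ) ^ (2 * h) / M ^ (2 * h) * X = (Fintype.card ι : ℝ) ^ (2 * h) * (X / M ^ (2 * h)) := by
        ring
      rw [h5, mul_comm (L ^ C)] at h2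
      have h6 := le_of_mul_le_mul_left h2 hcp
      rwa [div_le_iff₀ hMp] at h6
    linarith
  have hsub : univ.filter (fun x => |((v x - y : ℤ) : ℝ)| ≤ L ^ R) ⊆
      (Icc (y - J) (y + J)).biUnion (fun z => univ.filter (fun x => v x = z)) := by
    intro x hx
    rw [mem_filter] at hx
    rw [mem_biUnion]
    refine ⟨v x, ?_, by rw [mem_filter]; exact ⟨mem_univ _, rfl⟩⟩
    have h1 : |((v x - y : ℤ) : ℝ)| < ((J + 1 : ℕ) : ℤ) := by push_cast; push_cast at hx; linarith [hx.2]
    have h2 : |v x - y| < ((J + 1 : ℕ) : ℤ) := by exact_mod_cast h1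
    rw [abs_lt] at h2
    rw [mem_Icc]
    push_cast at h2
    constructor <;> linarith [h2.1, h2.2]
  calc ((univ.filter (fun x => |((v x - y : ℤ) : ℝ)| ≤ L ^ R)).card : ℝ)
      ≤ ∑ z ∈ Icc (y - J) (y + J), ((univ.filter (fun x => v x = z)).card : ℝ) := by
        exact_mod_cast (card_le_card hsub).trans card_biUnion_le
    _ ≤ ∑ _z ∈ Icc (y - (J : ℤ)) (y + J), (Fintype.card ι : ℝ) / M := sum_le_sum fun z _ => hfib z
    _ = (2 * J + 1) * (Fintype.card ι / M) := by
        rw [sum_const, Int.card_Icc, nsmul_eq_mul]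
        congr 1
        have : (y + (J : ℤ) + 1 - (y - J)).toNat = 2 * J + 1 := by omega
        rw [this]; push_cast; ring
    _ ≤ (3 * L ^ R) * (Fintype.card ι / M) := by
        apply mul_le_mul_of_nonneg_right (by linarith) (by positivity)
    _ = Fintype.card ι / L ^ V := by
        rw [hM, pow_add]
        field_simp

open Classical in
/-- a condition rare in one coordinate is rare -/
lemma rare_coord {k : ℕ} (ι : Fin k → Type) [∀ i, Fintype (ι i)] (P : (∀ i, ι i) → Prop) (j : Fin k) (θ : ℝ)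
    (hP : ∀ m : ∀ i, ι i, ((univ.filter (fun x : ι j => P (Function.update m j x))).card : ℝ) ≤ Fintype.card (ι j) * θ) :
    ((univ.filter P).card : ℝ) ≤ (∏ i, (Fintype.card (ι i) : ℝ)) * θ := by
  by_cases hj : Fintype.card (ι j) = 0
  · have h1 : IsEmpty (ι j) := Fintype.card_eq_zero_iff.1 hj
    have h2 : (univ.filter P).card = 0 := by
      rw [card_eq_zero, filter_eq_empty_iff]
      intro m _
      exact (h1.false (m j)).elim
    rw [h2, prod_eq_zero (mem_univ j) (by rw [hj]; simp)]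
    simp
  have hj0 : (0 : ℝ) < Fintype.card (ι j) := by exact_mod_cast Nat.pos_of_ne_zero hj
  have e1 : ∑ m : (∀ i, ι i), ((univ.filter (fun x : ι j => P (Function.update m j x))).card : ℝ) =
      ((univ.filter P).card : ℝ) * Fintype.card (ι j) := by
    have h1 : ∀ m : (∀ i, ι i), ((univ.filter (fun x : ι j => P (Function.update m j x))).card : ℝ) =
        ∑ x : ι j, if P (Function.update m j x) then (1 : ℝ) else 0 := fun m => by
      rw [sum_ite, sum_const, sum_const_zero, add_zero, nsmul_eq_mul, mul_one]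
    simp only [h1]
    rw [← Fintype.sum_prod_type' (f := fun (m : ∀ i, ι i) (x : ι j) => if P (Function.update m j x) then (1 : ℝ) else 0)]
    have h2 : ∑ q : (∀ i, ι i) × ι j, (if P (Function.update q.1 j q.2) then (1 : ℝ) else 0) =
        ∑ q : (∀ i, ι i) × ι j, (if P q.1 then (1 : ℝ) else 0) := by
      refine Fintype.sum_equiv
        { toFun := fun q => (Function.update q.1 j q.2, q.1 j)
          invFun := fun q => (Function.update q.1 j q.2, q.1 j)
          left_inv := fun q => by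
            apply Prod.ext
            · simp
            · simp
          right_inv := fun q => by
            apply Prod.ext
            · simp
            · simp } _ _ (fun q => rfl)
    have h3 : ∀ x : (∀ i, ι i), ∑ _y : ι j, (if P x then (1 : ℝ) else 0) =
        (Fintype.card (ι j) : ℝ) * (if P x then (1 : ℝ) else 0) := fun x => by
      rw [sum_const, card_univ, nsmul_eq_mul]
    rw [h2, Fintype.sum_prod_type, sum_congr rfl (fun x _ => h3 x)]
    rw [← mul_sum, sum_ite, sum_const, sum_const_zero, add_zero, nsmul_eq_mul, mul_one, mul_comm]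
  have e2 : ∑ m : (∀ i, ι i), ((univ.filter (fun x : ι j => P (Function.update m j x))).card : ℝ) ≤
      ∑ _m : (∀ i, ι i), (Fintype.card (ι j) : ℝ) * θ := sum_le_sum fun m _ => hP m
  rw [e1, sum_const, card_univ, Fintype.card_pi, nsmul_eq_mul, Nat.cast_prod] at e2
  have e3 : ((univ.filter P).card : ℝ) * Fintype.card (ι j) ≤
      ((∏ i, (Fintype.card (ι i) : ℝ)) * θ) * Fintype.card (ι j) := by
    refine e2.trans (le_of_eq ?_)
    ring
  exact le_of_mul_le_mul_right e3 hj0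

open Classical in
/-- few tuples of members have small members or close members -/
theorem spread_exc (k : ℕ) (h C : Fin k → ℕ) (R U : ℕ) : ∃ X₀ : ℕ, ∀ X : ℕ, X₀ ≤ X →
    ∀ (ι : Fin k → Type) [∀ i, Fintype (ι i)] (v : ∀ i, ι i → ℤ),
      (∀ i, (En (h i) (v i) : ℝ) * X ≤ Real.log X ^ C i * (Fintype.card (ι i) : ℝ) ^ (2 * h i)) →
      ((univ.filter (fun m : ∀ i, ι i => ¬ ((∀ i, Real.log X ^ R < |((v i (m i) : ℤ) : ℝ)|) ∧
        ∀ i j, i ≠ j → Real.log X ^ R < |((v i (m i) : ℤ) : ℝ) - ((v j (m j) : ℤ) : ℝ)|))).card : ℝ) ≤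
      (∏ i, (Fintype.card (ι i) : ℝ)) / Real.log X ^ U := by
  choose x₀ hx₀ using fun i : Fin k => near_one (h i) (C i) R (U + 2)
  obtain ⟨n1, hn1⟩ := Pool.Agent.Helper85.AE.ev_log (k + 1)
  refine ⟨∑ i, x₀ i + n1, fun X hX ι _ v hE => ?_⟩
  have hX₀ : ∀ i, x₀ i ≤ X := fun i =>
    (single_le_sum (f := x₀) (fun _ _ => Nat.zero_le _) (mem_univ i)).trans (by omega)
  obtain ⟨L, hL⟩ : ∃ L, L = Real.log (X : ℝ) := ⟨_, rfl⟩
  have hLk : (k : ℝ) + 1 ≤ L := by rw [hL]; exact hn1 X (by omega)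
  have hk0 : (0 : ℝ) ≤ k := Nat.cast_nonneg _
  have hL1 : 1 ≤ L := by linarith
  have hL0 : 0 < L := by linarith
  have hone := fun i => hx₀ i X (hX₀ i) (ι i) (v i) (hE i)
  rw [← hL] at hone ⊢
  have hP0 : 0 ≤ ∏ i, (Fintype.card (ι i) : ℝ) := prod_nonneg fun _ _ => Nat.cast_nonneg _
  obtain ⟨θ, hθ⟩ : ∃ θ : ℝ, θ = 1 / L ^ (U + 2) := ⟨_, rfl⟩
  have hθ0 : 0 ≤ θ := by rw [hθ]; positivity
  have hE1 : ∀ i, ((univ.filter (fun m : ∀ i, ι i => |((v i (m i) : ℤ) : ℝ)| ≤ L ^ R)).card : ℝ) ≤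
      (∏ i, (Fintype.card (ι i) : ℝ)) * θ := by
    intro i
    apply rare_coord ι (fun m => |((v i (m i) : ℤ) : ℝ)| ≤ L ^ R) i θ
    intro m
    have h1 := hone i 0
    simp only [sub_zero] at h1
    simp only [Function.update_self]
    rw [hθ, mul_one_div]
    exact h1
  have hE2 : ∀ i j, i ≠ j → ((univ.filter (fun m : ∀ i, ι i => |((v i (m i) : ℤ) : ℝ) - ((v j (m j) : ℤ) : ℝ)| ≤ L ^ R)).card : ℝ) ≤
      (∏ i, (Fintype.card (ι i) : ℝ)) * θ := by
    intro i j hij
    apply rare_coord ι (fun m => |((v i (m i) : ℤ) : ℝ) - ((v j (m j) : ℤ) : ℝ)| ≤ L ^ R) j θ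
    intro m
    have h1 := hone j (v i (m i))
    simp only [Function.update_self, Function.update_of_ne hij]
    rw [hθ, mul_one_div]
    refine le_trans (le_of_eq ?_) h1
    congr 2
    apply filter_congr
    intro x _
    rw [abs_sub_comm]
    push_cast
    exact Iff.rfl
  have hsub : univ.filter (fun m : ∀ i, ι i => ¬ ((∀ i, L ^ R < |((v i (m i) : ℤ) : ℝ)|) ∧
        ∀ i j, i ≠ j → L ^ R < |((v i (m i) : ℤ) : ℝ) - ((v j (m j) : ℤ) : ℝ)|)) ⊆
      (univ.biUnion fun i => univ.filter (fun m : ∀ i, ι i => |((v i (m i) : ℤ) : ℝ)| ≤ L ^ R)) ∪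
      ((univ.filter (fun q : Fin k × Fin k => q.1 ≠ q.2)).biUnion fun q =>
        univ.filter (fun m : ∀ i, ι i => |((v q.1 (m q.1) : ℤ) : ℝ) - ((v q.2 (m q.2) : ℤ) : ℝ)| ≤ L ^ R)) := by
    intro m hm
    rw [mem_filter] at hm
    rw [mem_union, mem_biUnion, mem_biUnion]
    by_contra hcon
    push Not at hcon
    apply hm.2
    refine ⟨fun i => ?_, fun i j hij => ?_⟩
    · have h1 := hcon.1 i (mem_univ _)
      rw [mem_filter, not_and, not_le] at h1
      exact h1 (mem_univ _)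
    · have h1 := hcon.2 (i, j) (by rw [mem_filter]; exact ⟨mem_univ _, hij⟩)
      rw [mem_filter, not_and, not_le] at h1
      exact h1 (mem_univ _)
  have hc1 : ((univ.biUnion fun i => univ.filter (fun m : ∀ i, ι i => |((v i (m i) : ℤ) : ℝ)| ≤ L ^ R)).card : ℝ) ≤
      k * ((∏ i, (Fintype.card (ι i) : ℝ)) * θ) := by
    calc _ ≤ ∑ i, ((univ.filter (fun m : ∀ i, ι i => |((v i (m i) : ℤ) : ℝ)| ≤ L ^ R)).card : ℝ) := by
          exact_mod_cast card_biUnion_le
      _ ≤ ∑ _i : Fin k, (∏ i, (Fintype.card (ι i) : ℝ)) * θ := sum_le_sum fun i _ => hE1 i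
      _ = _ := by rw [sum_const, card_univ, Fintype.card_fin, nsmul_eq_mul]
  have hc2 : (((univ.filter (fun q : Fin k × Fin k => q.1 ≠ q.2)).biUnion fun q =>
        univ.filter (fun m : ∀ i, ι i => |((v q.1 (m q.1) : ℤ) : ℝ) - ((v q.2 (m q.2) : ℤ) : ℝ)| ≤ L ^ R)).card : ℝ) ≤
      (k * k) * ((∏ i, (Fintype.card (ι i) : ℝ)) * θ) := by
    calc _ ≤ ∑ q ∈ univ.filter (fun q : Fin k × Fin k => q.1 ≠ q.2), ((univ.filter (fun m : ∀ i, ι i =>
          |((v q.1 (m q.1) : ℤ) : ℝ) - ((v q.2 (m q.2) : ℤ) : ℝ)| ≤ L ^ R)).card : ℝ) := by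
          exact_mod_cast card_biUnion_le
      _ ≤ ∑ _q ∈ univ.filter (fun q : Fin k × Fin k => q.1 ≠ q.2), (∏ i, (Fintype.card (ι i) : ℝ)) * θ :=
          sum_le_sum fun q hq => hE2 q.1 q.2 (mem_filter.1 hq).2
      _ = ((univ.filter (fun q : Fin k × Fin k => q.1 ≠ q.2)).card : ℝ) * ((∏ i, (Fintype.card (ι i) : ℝ)) * θ) := by
          rw [sum_const, nsmul_eq_mul]
      _ ≤ _ := by
          apply mul_le_mul_of_nonneg_right _ (mul_nonneg hP0 hθ0)
          have h1 := card_filter_le (univ : Finset (Fin k × Fin k)) (fun q => q.1 ≠ q.2)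
          rw [card_univ, Fintype.card_prod, Fintype.card_fin] at h1
          exact_mod_cast h1
  have hcard := (card_le_card hsub).trans (card_union_le _ _)
  have hcard' := (Nat.cast_le (α := ℝ)).2 hcard
  rw [Nat.cast_add] at hcard'
  refine hcard'.trans ((add_le_add hc1 hc2).trans ?_)
  have e : (k : ℝ) * ((∏ i, (Fintype.card (ι i) : ℝ)) * θ) + (k * k) * ((∏ i, (Fintype.card (ι i) : ℝ)) * θ) =
      ((k + k * k) / L ^ 2) * ((∏ i, (Fintype.card (ι i) : ℝ)) / L ^ U) := by
    rw [hθ, pow_add]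
    field_simp
  rw [e]
  have h5 : ((k : ℝ) + k * k) / L ^ 2 ≤ 1 := by
    rw [div_le_one (by positivity)]
    nlinarith
  calc _ ≤ 1 * ((∏ i, (Fintype.card (ι i) : ℝ)) / L ^ U) := by
        apply mul_le_mul_of_nonneg_right h5
        exact div_nonneg hP0 (by positivity)
    _ = _ := one_mul _

end Pool.Agent.Helper85.SZ
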