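import Pool.Agent.Helper85.SZ.Rel
import Pool.Agent.Helper85.SZ.Spread
import Pool.Agent.Helper85.RP.TupR

/-! Progressions in every dense subset of the primes `p` with `p + a i` prime, for almost all tuples of shifts from
families of integers with nearly minimal additive energy. -/

set_option autoImplicit false

open Finset Filter Topology

namespace Pool.Agent.Helper85.SZ

open Pool.Agent.H373R2.T7 (singZ Admissible)
open Pool.Agent.W93.TD (HLs)
open Pool.Agent.TH935.GF (En)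

/-- The primes `p ≤ X` such that all `p + a i` are primes. -/
def prs {k : ℕ} (a : Fin k → ℕ) (X : ℕ) : Finset ℕ := (Icc 1 X).filter (fun p => p.Prime ∧ ∀ i, (p + a i).Prime)

/-- many primes, and progressions in all dense subsets -/
def Rich {k : ℕ} (c δ : ℝ) (l B X : ℕ) (a : Fin k → ℕ) : Prop :=
  c * (X / Real.log X ^ (k + 1)) ≤ (prs a X).card ∧
  ∀ S : Finset ℕ, S ⊆ prs a X → δ * (prs a X).card ≤ S.card →
    ∃ n d : ℕ, 1 ≤ d ∧ (d : ℝ) ≤ Real.log X ^ B ∧ ∀ i < l, n + i * d ∈ S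

theorem rich_of (k : ℕ) : ∃ c : ℝ, 0 < c ∧ ∀ (l : ℕ) (δ : ℝ), 0 < δ → ∃ B X₀ : ℕ, ∀ X : ℕ, X₀ ≤ X →
    ∀ (U : ℕ) (a : Fin k → ℕ), (∀ i, a i ≤ X ^ 2) → Spread (Real.log X ^ (2 * B)) a → HLs (1 / 2) U X a →
    Admissible (fun i => (a i : ℤ)) → Rich c δ l B X a := by
  obtain ⟨c, hc, hlow⟩ := Pool.Agent.H373R2.T7.singZ_low k
  refine ⟨c / 2, by positivity, fun l δ hδ => ?_⟩
  obtain ⟨B, X₀, h0⟩ := rel k l (δ / 2) (by positivity)
  refine ⟨B, X₀, fun X hX U a ha hsp hHL hadm => ?_⟩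
  obtain ⟨S, hS, -, h3⟩ := hHL
  obtain ⟨hS0, h4⟩ := h3 hadm
  have hSc : c ≤ S := ge_of_tendsto' hS fun z => hlow _ hadm z
  have hlog : 0 ≤ Real.log (X : ℝ) := Real.log_natCast_nonneg X
  have hY : 0 ≤ (X : ℝ) / Real.log X ^ (k + 1) := by positivity
  have h5 : S * (X / Real.log X ^ (k + 1)) / 2 ≤ ((prs a X).card : ℝ) := by
    have h6 := (abs_le.1 h4).1
    have h7 : (Pool.Agent.H560R3.GB.primeTuples a X : ℝ) = ((prs a X).card : ℝ) := rfl
    rw [h7] at h6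
    linarith
  refine ⟨?_, fun T hT hTc => ?_⟩
  · have h6 : c * (X / Real.log X ^ (k + 1)) ≤ S * (X / Real.log X ^ (k + 1)) := mul_le_mul_of_nonneg_right hSc hY
    linarith
  · refine h0 X hX a ha hsp hadm S hS T (fun p hp => ?_) ?_
    · have h6 := hT hp
      unfold prs at h6
      rw [mem_filter, mem_Icc] at h6
      exact ⟨h6.1.2, h6.2.1, h6.2.2⟩
    · have h6 : δ * (S * (X / Real.log X ^ (k + 1)) / 2) ≤ δ * (prs a X).card := mul_le_mul_of_nonneg_left h5 hδ.le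
      linarith

lemma alg2 (L P : ℝ) (hL : 0 < L) (U : ℕ) : P / L ^ (U + 1) + P / L ^ (U + 1) = (2 / L) * (P / L ^ U) := by
  rw [pow_succ]
  field_simp
  ring

open Classical in
/-- The number of the tuples of integers near the values of real polynomials in independent variables for which there
are not enough progressions. -/
theorem near_rich (k : ℕ) (hk : 1 ≤ k) : ∃ c : ℝ, 0 < c ∧ ∀ (l : ℕ) (δ : ℝ), 0 < δ → ∃ B : ℕ,
    ∀ (n d : Fin k → ℕ), (∀ i, 1 ≤ d i) →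
    ∀ (Φ : ∀ i, MvPolynomial (Fin (n i)) ℝ), (∀ i, (Φ i).IsHomogeneous (d i)) → (∀ i, Φ i ≠ 0) →
    ∀ (K T U B₁ : ℕ), ∃ X₀ : ℕ, ∀ X : ℕ, X₀ ≤ X →
      ∀ N : Fin k → ℕ, (∀ i, (X : ℝ) ≤ Real.log X ^ K * (N i : ℝ) ^ d i) →
      ∀ G : ∀ i, MvPolynomial (Fin (n i)) ℝ, (∀ i, (G i).totalDegree < d i) →
      (∀ i, ∀ x ∈ RP.box (n i) (N i), |MvPolynomial.eval (fun j => (x j : ℝ)) (Φ i + G i)| ≤ B₁ * X) →
      (((Fintype.piFinset (fun i => RP.box (n i) (N i))).filter (fun x => ∃ a : Fin k → ℕ,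
        (∀ i, |(a i : ℝ) - MvPolynomial.eval (fun j => (x i j : ℝ)) (Φ i + G i)| ≤ Real.log X ^ T) ∧
        Admissible (fun i => (a i : ℤ)) ∧ ¬ Rich c δ l B X a)).card : ℝ) ≤
        (∏ i, ((RP.box (n i) (N i)).card : ℝ)) / Real.log X ^ U := by
  obtain ⟨c, hc, hrich⟩ := rich_of k
  refine ⟨c, hc, fun l δ hδ => ?_⟩
  obtain ⟨B, X₁, h1⟩ := hrich l δ hδ
  refine ⟨B, fun n d hd Φ hΦ hΦ0 K T U B₁ => ?_⟩
  choose h hh C hC hen using fun i => RP.energy_box (n i) (d i) (hd i) (Φ i) (hΦ i) (hΦ0 i)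
  obtain ⟨X₂, h2⟩ := RP.near_tuples k hk n d hd Φ hΦ hΦ0 B₁ K T (U + 1) (1 / 2) (by norm_num)
  obtain ⟨X₃, h3⟩ := spread_exc k h (fun _ => K + 1) (2 * B + T + 2) (U + 1)
  obtain ⟨n1, hn1⟩ := Pool.Agent.Helper85.AE.ev_log (5 + B₁ + ∑ i, C i)
  obtain ⟨n2, hn2⟩ := Pool.Agent.Helper85.AE.ev_pow 1 (by norm_num) (T + 1) 2
  refine ⟨X₁ + X₂ + X₃ + n1 + n2 + 3, fun X hX N hN G hG hb => ?_⟩
  have hX0 : (0 : ℝ) < X := by exact_mod_cast (by omega : 0 < X)
  have hL := hn1 X (by omega)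
  have hLp := hn2 X (by omega)
  rw [Real.rpow_one] at hLp
  have g2 := h2 X (by omega) N hN G hG hb
  obtain ⟨F, hF⟩ : ∃ F : ∀ i, (Fin (n i) → ℤ) → ℝ, ∀ i x, F i x = MvPolynomial.eval (fun j => (x j : ℝ)) (Φ i + G i) :=
    ⟨_, fun _ _ => rfl⟩
  simp only [← hF] at hb g2 ⊢
  obtain ⟨L, hLd⟩ : ∃ L, L = Real.log (X : ℝ) := ⟨_, rfl⟩
  have hB₁0 : (0 : ℝ) ≤ B₁ := Nat.cast_nonneg _
  have hCs : ∀ i, C i ≤ ∑ i, C i := fun i => single_le_sum (fun j _ => (hC j).le) (mem_univ i)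
  have hCp : 0 ≤ ∑ i, C i := sum_nonneg fun i _ => (hC i).le
  rw [← hLd] at hL hLp hN g2 ⊢
  have hL5 : 5 ≤ L := by linarith
  have hL0 : 0 < L := by linarith
  have hLT : 1 ≤ L ^ T := one_le_pow₀ (by linarith)
  have hNi : ∀ i, 1 ≤ N i := by
    intro i
    by_contra hcon
    have h1 := hN i
    rw [show N i = 0 by omega, Nat.cast_zero, zero_pow (by have := hd i; omega), mul_zero] at h1
    linarith
  have g3 := h3 X (by omega) (fun i => {x // x ∈ RP.box (n i) (N i)}) (fun i x => ⌊F i x.1⌋) (fun i => by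
      have h3 := hen i (G i) (hG i) (N i) (hNi i)
      simp only [← hF] at h3
      rw [← hLd, Fintype.card_coe]
      obtain ⟨E, hE⟩ : ∃ E : ℝ, E = (En (h i) (fun x : {x // x ∈ RP.box (n i) (N i)} => ⌊F i x.1⌋) : ℝ) := ⟨_, rfl⟩
      have hE0 : 0 ≤ E := by rw [hE]; positivity
      rw [← hE] at h3 ⊢
      calc E * X ≤ E * (L ^ K * (N i : ℝ) ^ d i) := mul_le_mul_of_nonneg_left (hN i) hE0
        _ = L ^ K * (E * (N i : ℝ) ^ d i) := by ring
        _ ≤ L ^ K * (C i * ((RP.box (n i) (N i)).card : ℝ) ^ (2 * h i)) := mul_le_mul_of_nonneg_left h3 (by positivity)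
        _ ≤ L ^ K * (L * ((RP.box (n i) (N i)).card : ℝ) ^ (2 * h i)) := by
            apply mul_le_mul_of_nonneg_left _ (by positivity)
            apply mul_le_mul_of_nonneg_right _ (by positivity)
            linarith [hCs i]
        _ = _ := by ring)
  rw [← hLd] at g3
  simp only [Fintype.card_coe] at g3
  obtain ⟨Bad, hBad⟩ : ∃ Bad, Bad = (univ.filter (fun m : ∀ i, {x // x ∈ RP.box (n i) (N i)} =>
    ¬ ((∀ i, L ^ (2 * B + T + 2) < |((⌊F i (m i).1⌋ : ℤ) : ℝ)|) ∧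
        ∀ i j, i ≠ j → L ^ (2 * B + T + 2) < |((⌊F i (m i).1⌋ : ℤ) : ℝ) - ((⌊F j (m j).1⌋ : ℤ) : ℝ)|))) := ⟨_, rfl⟩
  rw [← hBad] at g3
  obtain ⟨Bad', hBad'⟩ : ∃ Bad' : Finset (∀ i, Fin (n i) → ℤ), Bad' = Bad.image (fun m i => (m i).1) := ⟨_, rfl⟩
  have g3' : (Bad'.card : ℝ) ≤ (∏ i, ((RP.box (n i) (N i)).card : ℝ)) / L ^ (U + 1) := by
    refine le_trans (Nat.cast_le.2 ?_) g3
    rw [hBad']
    exact card_image_le
  have hsub : (Fintype.piFinset (fun i => RP.box (n i) (N i))).filter (fun x => ∃ a : Fin k → ℕ,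
        (∀ i, |(a i : ℝ) - F i (x i)| ≤ L ^ T) ∧ Admissible (fun i => (a i : ℤ)) ∧ ¬ Rich c δ l B X a) ⊆
      (Fintype.piFinset (fun i => RP.box (n i) (N i))).filter (fun x => ∃ a : Fin k → ℕ,
        (∀ i, |(a i : ℝ) - F i (x i)| ≤ L ^ T) ∧ ¬ HLs (1 / 2) (U + 1) X a) ∪ Bad' := by
    intro x hx
    rw [mem_filter] at hx
    obtain ⟨hx1, a, ha, hadm, hnr⟩ := hx
    rw [mem_union]
    by_cases hHL : HLs (1 / 2) (U + 1) X a
    · right
      by_contra hnb
      apply hnr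
      rw [Fintype.mem_piFinset] at hx1
      have hsp : (∀ i, L ^ (2 * B + T + 2) < |((⌊F i (x i)⌋ : ℤ) : ℝ)|) ∧
          ∀ i j, i ≠ j → L ^ (2 * B + T + 2) < |((⌊F i (x i)⌋ : ℤ) : ℝ) - ((⌊F j (x j)⌋ : ℤ) : ℝ)| := by
        by_contra hcon
        apply hnb
        rw [hBad', mem_image]
        refine ⟨fun i => ⟨x i, hx1 i⟩, ?_, rfl⟩
        rw [hBad, mem_filter]
        exact ⟨mem_univ _, hcon⟩
      have hnear : ∀ i, |(a i : ℝ) - ((⌊F i (x i)⌋ : ℤ) : ℝ)| ≤ L ^ T + 1 := by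
        intro i
        have e1 := abs_le.1 (ha i)
        have e3 := Int.floor_le (F i (x i))
        have e4 := Int.lt_floor_add_one (F i (x i))
        rw [abs_le]
        constructor <;> linarith [e1.1, e1.2]
      have hbig : L ^ (2 * B) + 2 * (L ^ T + 1) ≤ L ^ (2 * B + T + 2) := by
        have e1 : L ^ (2 * B + T + 2) = L ^ (2 * B) * L ^ T * L ^ 2 := by rw [pow_add, pow_add]
        have e2 : 1 ≤ L ^ (2 * B) := one_le_pow₀ (by linarith)
        have e3 : 25 ≤ L ^ 2 := by nlinarith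
        have e4 : L ^ (2 * B) ≤ L ^ (2 * B) * L ^ T := le_mul_of_one_le_right (by linarith) hLT
        have e5 : L ^ T ≤ L ^ (2 * B) * L ^ T := le_mul_of_one_le_left (by linarith) e2
        rw [e1]
        nlinarith
      refine h1 X (by omega) (U + 1) a ?_ ⟨fun i => ?_, fun i j hij => ?_⟩ hHL hadm
      · intro i
        have e1 := (abs_le.1 (ha i)).2
        have e2 := (abs_le.1 (hb i (x i) (hx1 i))).2
        have e3 : L ^ T * L ≤ X / 2 := by
          have : L ^ (T + 1) = L ^ T * L := pow_succ _ _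
          linarith
        have e4 : (a i : ℝ) ≤ (X : ℝ) ^ 2 := by
          have e5 : (B₁ : ℝ) + 1 ≤ X := by
            have : L ≤ L ^ T * L := le_mul_of_one_le_left hL0.le hLT
            linarith
          have e6 : L ^ T ≤ X := by
            have : L ^ T ≤ L ^ T * L := le_mul_of_one_le_right (by positivity) (by linarith)
            linarith
          nlinarith
        exact_mod_cast e4
      · rw [← hLd]
        have e1 := hsp.1 i
        have e2 := hnear i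
        have e3 : |((⌊F i (x i)⌋ : ℤ) : ℝ)| ≤ |(a i : ℝ)| + |(a i : ℝ) - ((⌊F i (x i)⌋ : ℤ) : ℝ)| := by
          have := abs_sub_abs_le_abs_sub ((⌊F i (x i)⌋ : ℤ) : ℝ) (a i : ℝ)
          rw [abs_sub_comm] at this
          linarith
        rw [Nat.abs_cast] at e3
        linarith
      · rw [← hLd]
        have e1 := hsp.2 i j hij
        have e2 := abs_le.1 (hnear i)
        have e2' := abs_le.1 (hnear j)
        rcases lt_abs.1 e1 with e4 | e4
        · exact lt_of_lt_of_le (by linarith [e2.1, e2'.2]) (le_abs_self _)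
        · exact lt_of_lt_of_le (by linarith [e2.2, e2'.1]) (neg_le_abs _)
    · left
      rw [mem_filter]
      exact ⟨hx1, a, ha, hHL⟩
  have hcard := (card_le_card hsub).trans (card_union_le _ _)
  have hcard' := (Nat.cast_le (α := ℝ)).2 hcard
  rw [Nat.cast_add] at hcard'
  have hP0 : 0 ≤ ∏ i, ((RP.box (n i) (N i)).card : ℝ) := prod_nonneg fun _ _ => Nat.cast_nonneg _
  refine hcard'.trans ((add_le_add g2 g3').trans ?_)
  rw [alg2 L _ hL0 U]
  calc _ ≤ 1 * ((∏ i, ((RP.box (n i) (N i)).card : ℝ)) / L ^ U) := by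
        apply mul_le_mul_of_nonneg_right _ (div_nonneg hP0 (by positivity))
        rw [div_le_one hL0]
        linarith
    _ = _ := one_mul _

end Pool.Agent.Helper85.SZ
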