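import Pool.Agent.K3h89.SZ.SYSQ
import Pool.Agent.H373R2.T7.SingLim

/-! The product `∏ (x + b i)` of shifted variables as a system in the sense of project SZ: roots, common prime
factors, and the sieve product in terms of the partial products of the singular series. -/

set_option autoImplicit false

open Finset

namespace Pool.Agent.Helper85.SZ

open Pool.Agent.TH423.SH (PS)
open Pool.Agent.Y677.RSZ (rt V)
open Pool.Agent.K3h89.SZ (SysP CF)

/-- the product of the shifted variables -/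
def Fb {m : ℕ} (b : Fin m → ℤ) (x : ℤ) : ℤ := ∏ i, (x + b i)

lemma fb_dvd {m : ℕ} (b : Fin m → ℤ) {p : ℕ} (hp : p.Prime) (x : ℤ) :
    (p : ℤ) ∣ Fb b x ↔ ∃ i, (p : ℤ) ∣ x + b i := by
  unfold Fb
  rw [Prime.dvd_finset_prod_iff (Nat.prime_iff_prime_int.1 hp)]
  simp

lemma fb_rt {m : ℕ} (b : Fin m → ℤ) {p : ℕ} (hp : p.Prime) : rt (Fb b) p ≤ m := by
  classical
  have hp0 : (0 : ℤ) < p := by exact_mod_cast hp.pos
  unfold rt
  have hsub : (range p).filter (fun r : ℕ => (p : ℤ) ∣ Fb b r) ⊆ univ.image (fun i : Fin m => ((-(b i)) % p).toNat) := by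
    intro r hr
    rw [mem_filter, mem_range, fb_dvd b hp] at hr
    obtain ⟨hr1, i, hi⟩ := hr
    rw [mem_image]
    refine ⟨i, mem_univ _, ?_⟩
    have h1 : (r : ℤ) % p = (-(b i)) % p := by
      apply Int.emod_emod_of_dvd _ (dvd_refl (p : ℤ)) |>.symm.trans _ |>.symm.symm
      rw [Int.emod_emod_of_dvd _ (dvd_refl _)]
      apply Int.ModEq.symm
      rw [Int.modEq_iff_dvd]
      have e : (r : ℤ) - -(b i) = r + b i := by ring
      rw [e]
      exact hi
    have h2 : (r : ℤ) % p = r := Int.emod_eq_of_lt (by positivity) (by exact_mod_cast hr1)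
    rw [← h1, h2]
    simp
  refine (card_le_card hsub).trans (card_image_le.trans ?_)
  rw [card_univ, Fintype.card_fin]

lemma fb_sys {m g : ℕ} (b : Fin m → ℤ) (hg : m ≤ g)
    (h : ∀ p : ℕ, p.Prime → ∃ r : ℤ, ∀ i, ¬ (p : ℤ) ∣ r + b i) : SysP g (Fb b) := by
  refine ⟨fun p hp n => ?_, fun p hp => ⟨(fb_rt b hp).trans hg, ?_⟩⟩
  · rw [fb_dvd b hp, fb_dvd b hp]
    apply exists_congr
    intro i
    have e : n + (p : ℤ) + b i = (n + b i) + p := by ring
    rw [e]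
    exact dvd_add_self_right
  · obtain ⟨r, hr⟩ := h p hp
    have hp0 : (0 : ℤ) < p := by exact_mod_cast hp.pos
    have h1 : (((r % p).toNat : ℕ) : ℤ) = r % p := Int.toNat_of_nonneg (Int.emod_nonneg _ hp0.ne')
    have h2 : r % p < p := Int.emod_lt_of_pos _ hp0
    refine Pool.Agent.K3h89.SZ.sysq_lt (r := (r % p).toNat) (by
      rw [← h1] at h2
      exact_mod_cast h2) ?_
    rw [fb_dvd b hp, h1]
    rintro ⟨i, hi⟩
    apply hr i
    have e : r + b i = (r % p + b i) + p * (r / p) := by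
      have h3 := Int.emod_add_mul_ediv r p
      linarith
    rw [e]
    exact dvd_add hi (dvd_mul_right _ _)

lemma fb_cf {m : ℕ} (b : Fin m → ℤ) {h p : ℕ} (hp : p.Prime) (hc : CF (Fb b) h p) :
    ∃ i j, (p : ℤ) ∣ (b j - b i) + h := by
  obtain ⟨x, h1, h2⟩ := hc
  rw [fb_dvd b hp] at h1 h2
  obtain ⟨i, hi⟩ := h1
  obtain ⟨j, hj⟩ := h2
  refine ⟨i, j, ?_⟩
  have e : (b j - b i) + (h : ℤ) = (x + h + b j) - (x + b i) := by ring
  rw [e]
  exact dvd_sub hj hi

/-- the reciprocals of the numbers composed of given primes (as in `K3h89/SX/VX.lean`) -/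
private lemma fact_le' (S : Finset ℕ) (hS : ∀ p ∈ S, p.Prime) (T : Finset ℕ)
    (hT : ∀ m ∈ T, m ≠ 0 ∧ ∀ p : ℕ, p.Prime → p ∣ m → p ∈ S) :
    ∑ m ∈ T, (m : ℝ)⁻¹ ≤ ∏ p ∈ S, (1 - (p : ℝ)⁻¹)⁻¹ := by
  classical
  let f : ℕ →* ℝ :=
    { toFun := fun n => (n : ℝ)⁻¹
      map_one' := by simp
      map_mul' := fun a b => by simp [mul_comm] }
  have hf : ∀ {p : ℕ}, p.Prime → ‖f p‖ < 1 := by
    intro p hp
    show ‖((p : ℝ))⁻¹‖ < 1
    rw [norm_inv, Real.norm_natCast]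
    exact inv_lt_one_of_one_lt₀ (by exact_mod_cast hp.one_lt)
  have h := (EulerProduct.summable_and_hasSum_factoredNumbers_prod_filter_prime_geometric hf S).2
  have hSf : S.filter Nat.Prime = S := filter_true_of_mem hS
  rw [hSf] at h
  have hmem : ∀ m ∈ T, m ∈ Nat.factoredNumbers S := by
    intro m hm
    rw [Nat.mem_factoredNumbers']
    exact (hT m hm).2
  have h2 : ∑ m ∈ T.attach, f m.1 ≤ ∏ p ∈ S, (1 - f p)⁻¹ := by
    have h3 := sum_le_hasSum (T.attach.map ⟨fun m => (⟨m.1, hmem m.1 m.2⟩ : Nat.factoredNumbers S),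
      fun a b hab => by
        have := congrArg Subtype.val hab
        exact Subtype.ext this⟩) (fun m _ => by
          show (0 : ℝ) ≤ ((m.1 : ℝ))⁻¹
          positivity) h
    rw [sum_map] at h3
    exact h3
  rw [sum_attach T (fun m => f m)] at h2
  exact h2

private lemma log_le_prod (H : ℕ) (hH : 2 ≤ H) :
    Real.log H ≤ ∏ p ∈ PS 1 H, (1 - (p : ℝ)⁻¹)⁻¹ := by
  have h1 : Real.log H ≤ ∑ n ∈ Icc 1 H, (n : ℝ)⁻¹ := by
    have h := log_add_one_le_harmonic H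
    have h2 : Real.log H ≤ Real.log (H + 1) :=
      Real.log_le_log (by exact_mod_cast (by omega : 0 < H)) (by linarith)
    rw [harmonic_eq_sum_Icc] at h
    push_cast at h
    exact h2.trans (by exact_mod_cast h)
  refine h1.trans (fact_le' _ ?_ _ ?_)
  · intro p hp
    exact (mem_filter.1 hp).2.1
  · intro m hm
    rw [mem_Icc] at hm
    refine ⟨by omega, fun p hp hpm => ?_⟩
    unfold PS
    rw [mem_filter, mem_Icc]
    exact ⟨⟨hp.one_le, (Nat.le_of_dvd (by omega) hpm).trans hm.2⟩, hp,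
      fun h => hp.one_lt.ne' (Nat.dvd_one.1 h)⟩

lemma rt_cons {k : ℕ} (a : Fin k → ℤ) {p : ℕ} (hp : p.Prime) :
    rt (Fb (Fin.cons 0 a : Fin (k + 1) → ℤ)) p = Pool.Agent.H373R2.T7.nuP a p := by
  unfold rt Pool.Agent.H373R2.T7.nuP
  congr 1
  apply filter_congr
  intro r _
  rw [fb_dvd _ hp, Fin.exists_fin_succ]
  simp only [Fin.cons_zero, Fin.cons_succ, add_zero]
  rw [Int.natCast_dvd_natCast]

lemma V_le {k : ℕ} (a : Fin k → ℤ) (H : ℕ) (hH : 2 ≤ H) :
    V (Fb (Fin.cons 0 a : Fin (k + 1) → ℤ)) 1 H ≤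
      Pool.Agent.H373R2.T7.singZ a H / Real.log H ^ (k + 1) := by
  have hlog : 0 < Real.log H := Real.log_pos (by exact_mod_cast hH)
  have hPS : PS 1 H = (Icc 1 H).filter Nat.Prime := by
    unfold PS
    apply filter_congr
    intro p _
    constructor
    · exact fun h => h.1
    · exact fun h => ⟨h, fun h1 => h.one_lt.ne' (Nat.dvd_one.1 h1)⟩
  have hpos : ∀ p ∈ PS 1 H, 0 < 1 - 1 / (p : ℝ) := by
    intro p hp
    have : (1 : ℝ) < p := by exact_mod_cast (mem_filter.1 hp).2.1.one_lt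
    rw [sub_pos, div_lt_one (by linarith)]
    exact this
  have h1 : V (Fb (Fin.cons 0 a : Fin (k + 1) → ℤ)) 1 H =
      Pool.Agent.H373R2.T7.singZ a H * (∏ p ∈ PS 1 H, (1 - 1 / (p : ℝ))) ^ (k + 1) := by
    unfold V Pool.Agent.H373R2.T7.singZ
    rw [← hPS, ← prod_pow, ← prod_mul_distrib]
    apply prod_congr rfl
    intro p hp
    rw [rt_cons a (mem_filter.1 hp).2.1, div_mul_cancel₀ _ (pow_ne_zero _ (hpos p hp).ne')]
  have hq : 0 < ∏ p ∈ PS 1 H, (1 - 1 / (p : ℝ)) := prod_pos hpos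
  have h2 : ∏ p ∈ PS 1 H, (1 - 1 / (p : ℝ)) ≤ 1 / Real.log H := by
    have h := log_le_prod H hH
    rw [prod_inv_distrib] at h
    simp only [one_div] at hq ⊢
    rw [← one_div, le_div_iff₀ hlog]
    calc (∏ p ∈ PS 1 H, (1 - (p : ℝ)⁻¹)) * Real.log H
        ≤ (∏ p ∈ PS 1 H, (1 - (p : ℝ)⁻¹)) * (∏ p ∈ PS 1 H, (1 - (p : ℝ)⁻¹))⁻¹ :=
          mul_le_mul_of_nonneg_left h hq.le
      _ = 1 := mul_inv_cancel₀ hq.ne'
  rw [h1, div_eq_mul_one_div]
  apply mul_le_mul_of_nonneg_left _ (Pool.Agent.H373R2.T7.singZ_nonneg a H)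
  rw [← one_div_pow]
  exact pow_le_pow_left₀ hq.le h2 _

end Pool.Agent.Helper85.SZ
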